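import Pool.Agent.Q137.AZ.Hank

set_option autoImplicit false

open Polynomial Real

namespace Pool.Agent.Q137.AZ

open scoped Matrix
open Polynomial.Chebyshev

theorem det_bord (k : ℕ) (M : Matrix (Fin (k+2)) (Fin (k+2)) ℝ)
    (hc : ∀ i, M i (Fin.last (k+1)) = if i = 0 then 1 else 0)
    (hr : ∀ j, M (Fin.last (k+1)) j = if j = 0 then -1 else 0) :
    M.det = (Matrix.of fun i j : Fin k => M i.succ.castSucc j.succ.castSucc).det := by
  rw [Matrix.det_succ_column M (Fin.last (k+1)), Finset.sum_eq_single 0]
  · rw [hc, if_pos rfl, Matrix.det_succ_row _ (Fin.last k), Finset.sum_eq_single 0]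
    · have h1 : (M.submatrix (Fin.succAbove 0) (Fin.succAbove (Fin.last (k+1))))
          (Fin.last k) 0 = -1 := by
        simp only [Matrix.submatrix_apply, Fin.succAbove_zero, Fin.succAbove_last]
        rw [Fin.succ_last, hr]
        simp
      rw [h1, Matrix.submatrix_submatrix]
      have h2 : (M.submatrix (Fin.succAbove 0 ∘ Fin.succAbove (Fin.last k))
          (Fin.succAbove (Fin.last (k+1)) ∘ Fin.succAbove 0))
          = Matrix.of fun i j : Fin k => M i.succ.castSucc j.succ.castSucc := by
        ext i j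
        simp only [Matrix.submatrix_apply, Function.comp, Fin.succAbove_zero, Fin.succAbove_last,
          Matrix.of_apply]
        rw [Fin.succ_castSucc]
      rw [h2]
      simp only [Fin.val_zero, Fin.val_last, zero_add, add_zero, mul_one]
      rw [← mul_assoc, ← mul_assoc]
      have : ((-1:ℝ)^(k+1) * ((-1)^k) * (-1)) = 1 := by
        rw [pow_succ]
        have := mul_self_nonneg (0:ℝ)
        rw [show (-1:ℝ)^k * -1 * (-1)^k * -1 = ((-1)^k * (-1)^k) by ring, ← pow_add, ← two_mul,
          pow_mul]
        norm_num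
      rw [this, one_mul]
    · intro j _ hj
      have h1 : (M.submatrix (Fin.succAbove 0) (Fin.succAbove (Fin.last (k+1))))
          (Fin.last k) j = 0 := by
        simp only [Matrix.submatrix_apply, Fin.succAbove_zero, Fin.succAbove_last]
        rw [Fin.succ_last, hr, if_neg]
        intro h
        apply hj
        exact Fin.castSucc_injective _ (by simpa using h)
      rw [h1]
      ring
    · intro h; exact absurd (Finset.mem_univ _) h
  · intro i _ hi
    rw [hc, if_neg hi]
    ring
  · intro h; exact absurd (Finset.mem_univ _) h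

noncomputable def gam (N : ℕ) : ℝ[X] →ₗ[ℝ] ℝ[X] →ₗ[ℝ] ℝ :=
  bil (fun i j => if i < N then (if j < N then L (S ℝ ((j:ℤ) - (i:ℤ) - 1)) else 1)
    else (if j < N then -1 else 0))

theorem gam_low (N : ℕ) (p q : ℝ[X]) (hp : p.natDegree < N) (hq : q.natDegree < N) :
    gam N p q = beta L p q := by
  rw [poly_sum_fin p hp, poly_sum_fin q hq]
  simp only [map_sum, LinearMap.sum_apply, map_smul, LinearMap.smul_apply]
  apply Finset.sum_congr rfl
  intro i _
  congr 1
  apply Finset.sum_congr rfl
  intro j _
  congr 1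
  unfold gam
  rw [bil_X_pow, beta_X_pow, if_pos j.2, if_pos i.2]

theorem eval_one_sum (N : ℕ) (p : ℝ[X]) (hp : p.natDegree < N) :
    p.eval 1 = ∑ k : Fin N, p.coeff k := by
  calc p.eval 1 = (∑ k : Fin N, p.coeff k • X^(k:ℕ)).eval 1 := by rw [← poly_sum_fin p hp]
    _ = _ := by simp [eval_finsetSum]

theorem gam_right (N : ℕ) (p : ℝ[X]) (hp : p.natDegree < N) :
    gam N p (X^N) = p.eval 1 := by
  rw [eval_one_sum N p hp]
  calc gam N p (X^N) = gam N (∑ k : Fin N, p.coeff k • X^(k:ℕ)) (X^N) := by
        rw [← poly_sum_fin p hp]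
    _ = _ := by
        simp only [map_sum, LinearMap.sum_apply, map_smul, LinearMap.smul_apply]
        apply Finset.sum_congr rfl
        intro i _
        unfold gam
        rw [bil_X_pow, if_pos i.2, if_neg (lt_irrefl N)]
        simp

theorem gam_left (N : ℕ) (p : ℝ[X]) (hp : p.natDegree < N) :
    gam N (X^N) p = - p.eval 1 := by
  rw [eval_one_sum N p hp]
  calc gam N (X^N) p = gam N (X^N) (∑ k : Fin N, p.coeff k • X^(k:ℕ)) := by
        rw [← poly_sum_fin p hp]
    _ = _ := by
        simp only [map_sum, map_smul]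
        rw [← Finset.sum_neg_distrib]
        apply Finset.sum_congr rfl
        intro i _
        unfold gam
        rw [bil_X_pow, if_pos i.2, if_neg (lt_irrefl N)]
        simp

theorem gam_corner (N : ℕ) : gam N (X^N) (X^N) = 0 := by
  unfold gam
  rw [bil_X_pow, if_neg (lt_irrefl N), if_neg (lt_irrefl N)]

theorem f_eq (f : ℕ → ℝ) (f1 : f 1 = 2) (f2 : f 2 = 4)
    (f3 : ∀ k, 2 < k → f k = 2 * f (k-1) + f (k-2)) (k : ℕ) :
    f (k+1) = 2 * (ell (k+1)).eval 1 := by
  induction k using Nat.strong_induction_on with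
  | _ k ih =>
    rcases k with _ | _ | k
    · rw [f1]; simp [ell]
    · simp only [zero_add]
      rw [f2, ell_rec]; simp [ell]; norm_num
    · rw [f3 _ (by omega)]
      have e1 := ih (k+1) (by omega)
      have e2 := ih k (by omega)
      rw [show k+1+1+1-1 = k+1+1 by omega, show k+1+1+1-2 = k+1 by omega, e1, e2]
      rw [show k+1+1+1 = k+1+2 from rfl, ell_rec (k+1)]
      simp only [eval_add, eval_mul, eval_one, eval_X]
      ring

/-- the bordered matrix of the problem -/
noncomputable def bmat (a : ℕ → ℕ → ℝ) (f : ℕ → ℝ) (n : ℕ) : Matrix (Fin (2*n)) (Fin (2*n)) ℝ :=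
  Matrix.of fun i j =>
    if (i:ℕ) + 1 = 2*n then (if (j:ℕ) + 1 = 2*n then 0 else - f (j+1))
    else (if (j:ℕ) + 1 = 2*n then f (i+1) else a (i+1) (j+1))

theorem det_B (a : ℕ → ℕ → ℝ) (skew : ∀ i j, a i j = - a j i)
    (h1 : ∀ j, 1 < j → a 1 j = 2)
    (h2 : ∀ i j, 1 < i → i + 1 < j → a i j = a (i-1) j + a i (j-1) + a (i-1) (j-1))
    (h3 : ∀ i, 1 < i → a i (i+1) = a (i-1) (i+1) + a (i-1) i + 2 * (-1)^(i-1))
    (f : ℕ → ℝ) (f1 : f 1 = 2) (f2 : f 2 = 4)
    (f3 : ∀ k, 2 < k → f k = 2 * f (k-1) + f (k-2)) (n : ℕ) :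
    (bmat a f (n+1)).det = (2^(n+1) * HT n)^2 := by
  let N : ℕ := 2*n+1
  let F : Fin (2*(n+1)) → ℝ[X] := fun i => if (i:ℕ) < N then ell (i+1) else X^N
  let G : Fin (2*(n+1)) → ℝ[X] := fun i =>
    if (i:ℕ) = 0 then 1 else if (i:ℕ) < N then (X-1) * X^((i:ℕ)-1) else X^N
  have hN : ∀ i : Fin (2*(n+1)), ¬ ((i:ℕ) < N) → (i:ℕ) = N := by
    intro i h
    have := i.2
    simp only [N] at h ⊢
    omega
  have hFd : ∀ i, (F i).natDegree = i ∧ (F i).Monic := by
    intro i
    simp only [F]
    split_ifs with h
    · exact ⟨(ell_monic i).2, (ell_monic i).1⟩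
    · rw [hN i h]
      exact ⟨natDegree_X_pow N, monic_X_pow N⟩
  have hX1 : (X - 1 : ℝ[X]).Monic := by
    have := monic_X_sub_C (1:ℝ)
    simpa using this
  have hX1d : (X - 1 : ℝ[X]).natDegree = 1 := by
    have := natDegree_X_sub_C (1:ℝ)
    simpa using this
  have hGd : ∀ i, (G i).natDegree = i ∧ (G i).Monic := by
    intro i
    simp only [G]
    split_ifs with h h'
    · rw [h]; exact ⟨natDegree_one, monic_one⟩
    · constructor
      · rw [hX1.natDegree_mul (monic_X_pow _), hX1d, natDegree_X_pow]; omega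
      · exact hX1.mul (monic_X_pow _)
    · rw [hN i h']
      exact ⟨natDegree_X_pow N, monic_X_pow N⟩
  have e1 : bmat a f (n+1) = (2:ℝ) • (Matrix.of fun i j => gam N (F i) (F j)) := by
    ext i j
    rw [Matrix.smul_apply, Matrix.of_apply, smul_eq_mul]
    simp only [bmat, Matrix.of_apply]
    have hi2 := i.2
    have hj2 := j.2
    by_cases hi : (i:ℕ) < N
    · have hi' : ¬ ((i:ℕ) + 1 = 2*(n+1)) := by simp only [N] at hi; omega
      rw [if_neg hi']
      have Fi : F i = ell (i+1) := by simp only [F]; rw [if_pos hi]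
      have dFi : (ell ((i:ℕ)+1)).natDegree < N := by rw [(ell_monic i).2]; exact hi
      by_cases hj : (j:ℕ) < N
      · have hj' : ¬ ((j:ℕ) + 1 = 2*(n+1)) := by simp only [N] at hj; omega
        rw [if_neg hj']
        have Fj : F j = ell (j+1) := by simp only [F]; rw [if_pos hj]
        have dFj : (ell ((j:ℕ)+1)).natDegree < N := by rw [(ell_monic j).2]; exact hj
        rw [Fi, Fj, gam_low N _ _ dFi dFj, a_eq a skew h1 h2 h3]
        rfl
      · have hj' : (j:ℕ) + 1 = 2*(n+1) := by simp only [N] at hj; omega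
        rw [if_pos hj']
        have Fj : F j = X^N := by simp only [F]; rw [if_neg hj]
        rw [Fi, Fj, gam_right N _ dFi, f_eq f f1 f2 f3]
    · have hi' : (i:ℕ) + 1 = 2*(n+1) := by simp only [N] at hi; omega
      rw [if_pos hi']
      have Fi : F i = X^N := by simp only [F]; rw [if_neg hi]
      by_cases hj : (j:ℕ) < N
      · have hj' : ¬ ((j:ℕ) + 1 = 2*(n+1)) := by simp only [N] at hj; omega
        rw [if_neg hj']
        have Fj : F j = ell (j+1) := by simp only [F]; rw [if_pos hj]
        have dFj : (ell ((j:ℕ)+1)).natDegree < N := by rw [(ell_monic j).2]; exact hj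
        rw [Fi, Fj, gam_left N _ dFj, f_eq f f1 f2 f3]
        ring
      · have hj' : (j:ℕ) + 1 = 2*(n+1) := by simp only [N] at hj; omega
        rw [if_pos hj']
        have Fj : F j = X^N := by simp only [F]; rw [if_neg hj]
        rw [Fi, Fj, gam_corner]
        ring
  rw [e1, Matrix.det_smul, Fintype.card_fin]
  rw [gram_det' (gam N) F F G G (fun i => (hFd i).1) (fun i => (hFd i).2)
    (fun i => (hFd i).1) (fun i => (hFd i).2) (fun i => (hGd i).1) (fun i => (hGd i).2)
    (fun i => (hGd i).1) (fun i => (hGd i).2)]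
  have e2 : (Matrix.of fun i j => gam N (G i) (G j)).det
      = (Matrix.of fun i j : Fin (2*n) => beta (twist L) (X^(i:ℕ)) (X^(j:ℕ))).det := by
    have hlast : ∀ x : Fin (2*n+2), x = Fin.last (2*n+1) ∨ (x:ℕ) < N := by
      intro x
      have := x.2
      by_cases h : (x:ℕ) < N
      · right; exact h
      · left; ext; simp only [N] at h; simp; omega
    have Glast : G (Fin.last (2*n+1)) = X^N := by
      simp only [G, Fin.val_last, N]
      rw [if_neg (by omega), if_neg (lt_irrefl _)]
    have hval : ∀ x : Fin (2*n+2), (x:ℕ) < N → (G x).natDegree < N ∧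
        (G x).eval 1 = if x = 0 then 1 else 0 := by
      intro x hx
      refine ⟨by rw [(hGd x).1]; exact hx, ?_⟩
      simp only [G]
      by_cases h0 : (x:ℕ) = 0
      · rw [if_pos h0, if_pos (Fin.ext h0)]; simp
      · rw [if_neg h0, if_pos hx, if_neg (fun h => h0 (by rw [h]; rfl))]
        simp
    have := det_bord (2*n) (Matrix.of fun i j => gam N (G i) (G j)) ?_ ?_
    · refine this.trans ?_
      congr 1
      ext i j
      simp only [Matrix.of_apply]
      have hi2 := i.2
      have hj2 := j.2
      have gi : G i.succ.castSucc = (X-1) * X^(i:ℕ) := by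
        simp only [G, Fin.val_castSucc, Fin.val_succ]
        rw [if_neg (by omega), if_pos (by simp only [N]; omega), Nat.add_sub_cancel]
      have gj : G j.succ.castSucc = (X-1) * X^(j:ℕ) := by
        simp only [G, Fin.val_castSucc, Fin.val_succ]
        rw [if_neg (by omega), if_pos (by simp only [N]; omega), Nat.add_sub_cancel]
      have di : (G i.succ.castSucc).natDegree < N := by
        rw [(hGd _).1]; simp only [Fin.val_castSucc, Fin.val_succ, N]; omega
      have dj : (G j.succ.castSucc).natDegree < N := by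
        rw [(hGd _).1]; simp only [Fin.val_castSucc, Fin.val_succ, N]; omega
      rw [gam_low N _ _ di dj, gi, gj, beta_twist]
    · intro i
      simp only [Matrix.of_apply]
      rw [Glast]
      rcases hlast i with h | h
      · rw [h, Glast, gam_corner, if_neg]
        intro h'
        have := congrArg Fin.val h'
        simp at this
      · rw [gam_right N _ (hval i h).1, (hval i h).2]
    · intro j
      simp only [Matrix.of_apply]
      rw [Glast]
      rcases hlast j with h | h
      · rw [h, Glast, gam_corner, if_neg]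
        intro h'
        have := congrArg Fin.val h'
        simp at this
      · rw [gam_left N _ (hval j h).1, (hval j h).2]
        split_ifs <;> simp
  rw [e2]
  have h5 : (Matrix.of fun i j : Fin (2*n) => beta (twist L) (X^(i:ℕ)) (X^(j:ℕ))).det
      = (Matrix.of fun i j : Fin (n+n) => beta (twist L) (X^(i:ℕ)) (X^(j:ℕ))).det := by
    rw [← Matrix.det_submatrix_equiv_self (finCongr (two_mul n))]
    congr 1
  rw [h5, toep_det]
  unfold HT
  ring

end Pool.Agent.Q137.AZ
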