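import Pool.Agent.Q137.AZ.Func

set_option autoImplicit false

open Polynomial Real

namespace Pool.Agent.Q137.AZ

theorem change_var (F : ℝ → ℝ) (hF : Continuous F) (c b : ℝ) (hb : 0 < b) :
    ∫ θ in (0:ℝ)..π, F (c + b * cos θ) * sin θ ^ 2
      = (1 / b^2) * ∫ t in (c - b)..(c + b), F t * √(b^2 - (t - c)^2) := by
  have h1 := intervalIntegral.integral_comp_mul_deriv (a := 0) (b := π)
    (f := fun θ => c + b * cos θ) (f' := fun θ => b * (- sin θ))
    (g := fun t => F t * √(b^2 - (t - c)^2))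
    (fun x _ => by
      have := ((hasDerivAt_cos x).const_mul b).const_add c
      exact this)
    (by fun_prop) (by fun_prop)
  simp only [Function.comp, cos_zero, cos_pi] at h1
  rw [show c + b * 1 = c + b by ring, show c + b * (-1) = c - b by ring] at h1
  rw [intervalIntegral.integral_symm (c + b) (c - b), ← h1, ← intervalIntegral.integral_neg,
    ← intervalIntegral.integral_const_mul]
  apply intervalIntegral.integral_congr
  intro θ hθ
  rw [Set.uIcc_of_le pi_pos.le] at hθ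
  have hs : 0 ≤ sin θ := sin_nonneg_of_nonneg_of_le_pi hθ.1 hθ.2
  have h2 : b^2 - (c + b * cos θ - c)^2 = (b * sin θ)^2 := by
    have := sin_sq_add_cos_sq θ
    have h3 : cos θ ^ 2 = 1 - sin θ ^ 2 := by linarith
    rw [show c + b * cos θ - c = b * cos θ by ring, mul_pow, h3]; ring
  simp only
  rw [h2, sqrt_sq (by positivity)]
  field_simp

theorem E0_comp (P : ℝ[X]) (c : ℝ) (b : ℝ) (hb : 0 < b) (q : ℝ[X])
    (hq : ∀ x : ℝ, q.eval (2 * x) = c + b * x) :
    E0 (P.comp q) = (2 / (π * b^2)) * ∫ t in (c - b)..(c + b), P.eval t * √(b^2 - (t - c)^2) := by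
  rw [E0_apply]
  have := change_var (fun t => P.eval t) (by fun_prop) c b hb
  simp only [eval_comp, hq] 
  rw [this]
  field_simp

theorem E0_nonneg (P : ℝ[X]) (h : ∀ x ∈ Set.Icc (-2:ℝ) 2, 0 ≤ P.eval x) : 0 ≤ E0 P := by
  rw [E0_apply]
  apply mul_nonneg (by positivity)
  apply intervalIntegral.integral_nonneg pi_pos.le
  intro θ _
  apply mul_nonneg _ (by positivity)
  apply h
  constructor
  · nlinarith [neg_one_le_cos θ]
  · nlinarith [cos_le_one θ]

theorem cmp (P : ℝ[X]) (h : ∀ x ∈ Set.Icc (-6:ℝ) 2, 0 ≤ P.eval x) :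
    E0 (P.comp (X - 4)) + E0 P ≤ 3 * E0 (P.comp (2 * X - 2)) := by
  have h2 := E0_comp P (-2) 4 (by norm_num) (2 * X - 2) (by intro x; simp; ring)
  have h4 := E0_comp P (-4) 2 (by norm_num) (X - 4) (by intro x; simp; ring)
  have h0 := E0_comp P 0 2 (by norm_num) X (by intro x; simp)
  rw [comp_X] at h0
  norm_num at h2 h4 h0
  rw [h2, h4, h0]
  have hI : ∀ (a b c' d : ℝ), IntervalIntegrable (fun t => P.eval t * √(c' - (t + d)^2))
      MeasureTheory.volume a b := fun a b c' d =>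
    (Continuous.intervalIntegrable (by fun_prop) _ _)
  have hI0 : ∀ (a b c' : ℝ), IntervalIntegrable (fun t => P.eval t * √(c' - t^2))
      MeasureTheory.volume a b := fun a b c' =>
    (Continuous.intervalIntegrable (by fun_prop) _ _)
  rw [← intervalIntegral.integral_add_adjacent_intervals (hI (-6) (-2) 16 2) (hI (-2) 2 16 2)]
  have m1 : ∫ t in (-6:ℝ)..(-2), P.eval t * √(4 - (t + 4)^2)
      ≤ ∫ t in (-6:ℝ)..(-2), (3/4) * (P.eval t * √(16 - (t + 2)^2)) := by
    apply intervalIntegral.integral_mono_on (by norm_num) (hI _ _ _ _) ((hI _ _ _ _).const_mul _)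
    intro t ht
    have hP : 0 ≤ P.eval t := h t ⟨ht.1, by linarith [ht.2]⟩
    have : √(4 - (t + 4)^2) ≤ (3/4) * √(16 - (t + 2)^2) := by
      apply Real.sqrt_le_iff.mpr
      constructor
      · positivity
      · rw [mul_pow, Real.sq_sqrt]
        · nlinarith [ht.1, ht.2]
        · nlinarith [ht.1, ht.2]
    calc P.eval t * √(4 - (t + 4)^2) ≤ P.eval t * ((3/4) * √(16 - (t + 2)^2)) :=
          mul_le_mul_of_nonneg_left this hP
      _ = _ := by ring
  have m2 : ∫ t in (-2:ℝ)..2, P.eval t * √(4 - t^2)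
      ≤ ∫ t in (-2:ℝ)..2, (3/4) * (P.eval t * √(16 - (t + 2)^2)) := by
    apply intervalIntegral.integral_mono_on (by norm_num) (hI0 _ _ _) ((hI _ _ _ _).const_mul _)
    intro t ht
    have hP : 0 ≤ P.eval t := h t ⟨by linarith [ht.1], ht.2⟩
    have : √(4 - t^2) ≤ (3/4) * √(16 - (t + 2)^2) := by
      apply Real.sqrt_le_iff.mpr
      constructor
      · positivity
      · rw [mul_pow, Real.sq_sqrt]
        · nlinarith [ht.1, ht.2]
        · nlinarith [ht.1, ht.2]
    calc P.eval t * √(4 - t^2) ≤ P.eval t * ((3/4) * √(16 - (t + 2)^2)) :=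
          mul_le_mul_of_nonneg_left this hP
      _ = _ := by ring
  rw [intervalIntegral.integral_const_mul] at m1 m2
  have hpi : 0 < 2 / (π * 4) := by positivity
  have e1 : 2 / (π * 4) * (∫ t in (-6:ℝ)..(-2), P.eval t * √(4 - (t + 4)^2))
      + 2 / (π * 4) * (∫ t in (-2:ℝ)..2, P.eval t * √(4 - t^2))
      ≤ 2 / (π * 4) * ((3/4) * (∫ t in (-6:ℝ)..(-2), P.eval t * √(16 - (t + 2)^2)))
      + 2 / (π * 4) * ((3/4) * (∫ t in (-2:ℝ)..2, P.eval t * √(16 - (t + 2)^2))) := by
    gcongr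
  refine e1.trans (le_of_eq ?_)
  field_simp
  ring

theorem L_upper (P : ℝ[X]) (h : ∀ x ∈ Set.Icc (-6:ℝ) 2, 0 ≤ P.eval x) :
    L P ≤ 2 * E0 (P.comp (2 * X - 2)) := by
  rw [L_apply]
  have h1 : 0 ≤ E0 (P.comp (X - 4)) := by
    apply E0_nonneg
    intro x hx
    rw [eval_comp]
    apply h
    simp only [eval_sub, eval_X, eval_ofNat]
    constructor <;> linarith [hx.1, hx.2]
  have h2 : 0 ≤ E0 P := by
    apply E0_nonneg
    intro x hx
    apply h
    constructor <;> linarith [hx.1, hx.2]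
  linarith

theorem L_lower (P : ℝ[X]) (h : ∀ x ∈ Set.Icc (-6:ℝ) 2, 0 ≤ P.eval x) :
    (1/2) * E0 (P.comp (2 * X - 2)) ≤ L P := by
  rw [L_apply]
  have := cmp P h
  linarith

end Pool.Agent.Q137.AZ
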