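import Mathlib

set_option autoImplicit false

open Polynomial Real

namespace Pool.Agent.Q137.AZ

open Polynomial.Chebyshev

/-- Semicircle functional on `[-2,2]`. -/
noncomputable def E0 : ℝ[X] →ₗ[ℝ] ℝ where
  toFun P := (2 / π) * ∫ θ in (0:ℝ)..π, P.eval (2 * cos θ) * sin θ ^ 2
  map_add' P Q := by
    rw [← mul_add, ← intervalIntegral.integral_add]
    · congr 1
      apply intervalIntegral.integral_congr
      intro θ _
      simp only [eval_add]
      ring
    · exact (Continuous.intervalIntegrable (by fun_prop) _ _)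
    · exact (Continuous.intervalIntegrable (by fun_prop) _ _)
  map_smul' c P := by
    simp only [eval_smul, smul_eq_mul, RingHom.id_apply]
    have : (fun θ : ℝ => c * P.eval (2 * cos θ) * sin θ ^ 2)
        = fun θ : ℝ => c * (P.eval (2 * cos θ) * sin θ ^ 2) := by
      funext θ; ring
    rw [this, intervalIntegral.integral_const_mul]
    ring

theorem E0_apply (P : ℝ[X]) :
    E0 P = (2 / π) * ∫ θ in (0:ℝ)..π, P.eval (2 * cos θ) * sin θ ^ 2 := rfl

theorem int_cos (m : ℤ) (hm : m ≠ 0) : ∫ θ in (0:ℝ)..π, cos (m * θ) = 0 := by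
  have hm' : (m : ℝ) ≠ 0 := by exact_mod_cast hm
  rw [intervalIntegral.integral_comp_mul_left (fun x => cos x) hm']
  simp [sin_int_mul_pi]

theorem E0_S_mul_S (i j : ℕ) : E0 (S ℝ i * S ℝ j) = if i = j then 1 else 0 := by
  rw [E0_apply]
  have h : ∀ θ : ℝ, (S ℝ i * S ℝ j).eval (2 * cos θ) * sin θ ^ 2
      = (1/2) * cos (((i:ℤ) - (j:ℤ) : ℤ) * θ) - (1/2) * cos (((i:ℤ) + (j:ℤ) + 2 : ℤ) * θ) := by
    intro θ
    have h1 := S_two_mul_real_cos θ (i : ℤ)
    have h2 := S_two_mul_real_cos θ (j : ℤ)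
    have : (S ℝ i * S ℝ j).eval (2 * cos θ) * sin θ ^ 2
        = ((S ℝ i).eval (2 * cos θ) * sin θ) * ((S ℝ j).eval (2 * cos θ) * sin θ) := by
      rw [eval_mul]; ring
    rw [this, h1, h2]
    have e1 : (((i:ℤ) - (j:ℤ) : ℤ) : ℝ) * θ = ((i:ℝ) + 1) * θ - ((j:ℝ) + 1) * θ := by
      push_cast; ring
    have e2 : (((i:ℤ) + (j:ℤ) + 2 : ℤ) : ℝ) * θ = ((i:ℝ) + 1) * θ + ((j:ℝ) + 1) * θ := by
      push_cast; ring
    rw [e1, e2, cos_sub, cos_add]
    push_cast
    ring
  simp_rw [h]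
  rw [intervalIntegral.integral_sub]
  · rw [intervalIntegral.integral_const_mul, intervalIntegral.integral_const_mul]
    rw [int_cos ((i:ℤ) + (j:ℤ) + 2) (by omega)]
    by_cases hij : i = j
    · subst hij
      simp
      field_simp
    · rw [int_cos ((i:ℤ) - (j:ℤ)) (by omega)]
      simp [hij]
  · exact (Continuous.intervalIntegrable (by fun_prop) _ _)
  · exact (Continuous.intervalIntegrable (by fun_prop) _ _)

theorem E0_S (k : ℕ) : E0 (S ℝ k) = if k = 0 then 1 else 0 := by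
  have := E0_S_mul_S k 0
  simpa using this

/-- `∑ p_k X^k ↦ ∑ p_k S_{k+s}` -/
noncomputable def psi (s : ℤ) : ℝ[X] →ₗ[ℝ] ℝ[X] :=
  Polynomial.lsum (fun k => LinearMap.toSpanSingleton ℝ ℝ[X] (S ℝ ((k:ℤ) + s)))

theorem psi_monomial (s : ℤ) (k : ℕ) (a : ℝ) : psi s (monomial k a) = a • S ℝ ((k:ℤ) + s) := by
  unfold psi
  rw [Polynomial.lsum_apply, Polynomial.sum_monomial_index]
  · rfl
  · simp

theorem psi_C_mul_X_pow (s : ℤ) (k : ℕ) (a : ℝ) :
    psi s (C a * X ^ k) = a • S ℝ ((k:ℤ) + s) := by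
  rw [C_mul_X_pow_eq_monomial, psi_monomial]

theorem psi_X_mul (s : ℤ) (p : ℝ[X]) : psi s (X * p) = psi (s+1) p := by
  induction p using Polynomial.induction_on' with
  | add p q hp hq => rw [mul_add, map_add, map_add, hp, hq]
  | monomial k a =>
    rw [X_mul_monomial, psi_monomial, psi_monomial]
    push_cast
    congr 2
    ring

theorem psi_X_sq (s : ℤ) (p : ℝ[X]) : psi (s+1) p + psi (s-1) p = X * psi s p := by
  induction p using Polynomial.induction_on' with
  | add p q hp hq =>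
    rw [map_add, map_add, map_add, mul_add, ← hp, ← hq]; ring
  | monomial k a =>
    rw [psi_monomial, psi_monomial, psi_monomial]
    have := S_add_one ℝ ((k:ℤ) + s)
    rw [mul_smul_comm, ← smul_add]
    congr 1
    have e1 : (k:ℤ) + (s+1) = (k:ℤ) + s + 1 := by ring
    have e2 : (k:ℤ) + (s-1) = (k:ℤ) + s - 1 := by ring
    rw [e1, e2, this]; ring

/-- value of the semicircle functional on `psi (-1) p`: coefficient of `X`. -/
theorem E0_psi (p : ℝ[X]) : E0 (psi (-1) p) = p.coeff 1 := by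
  induction p using Polynomial.induction_on' with
  | add p q hp hq => rw [map_add, map_add, hp, hq, coeff_add]
  | monomial k a =>
    rw [psi_monomial, map_smul, coeff_monomial]
    rcases k with _ | k
    · simp
    · have : ((k+1 : ℕ) : ℤ) + (-1) = (k : ℤ) := by push_cast; ring
      rw [this, E0_S]
      by_cases hk : k = 0 <;> simp [hk]



/-- Delannoy type polynomials -/
noncomputable def ell : ℕ → ℝ[X]
  | 0 => 0
  | 1 => 1
  | (j+2) => (1 + X) * ell (j+1) + X * ell j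

noncomputable def gg : ℕ → ℝ[X]
  | 0 => C (1/2)
  | 1 => C (1/2)
  | (j+2) => 2 * X * gg (j+1) + gg j

noncomputable def hh : ℕ → ℝ[X]
  | 0 => -1
  | 1 => 0
  | (j+2) => (X - 1) * hh (j+1) - X * hh j

theorem ell_rec (j : ℕ) : ell (j+2) = (1 + X) * ell (j+1) + X * ell j := by
  rw [ell]

theorem gg_rec (j : ℕ) : gg (j+2) = 2 * X * gg (j+1) + gg j := by
  rw [gg]

theorem hh_rec (j : ℕ) : hh (j+2) = (X - 1) * hh (j+1) - X * hh j := by
  rw [hh]

theorem psi_lem (a : ℝ) (p4 p3 p2 p1 p0 : ℝ[X])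
    (h : X * p4 - (X * (X * p3) + p3 + C a * (X * p3)) + 2 * (X * p2)
      + (X * (X * p1) + p1 + C a * (X * p1)) + X * p0 = 0) :
    psi (-1) p4 = (X + C a) * (psi (-1) p3 - psi (-1) p1) - 2 * psi (-1) p2 - psi (-1) p0 := by
  have hC : ∀ (c : ℝ) (q : ℝ[X]), psi (-2) (C c * q) = C c * psi (-2) q := by
    intro c q
    rw [← smul_eq_C_mul, map_smul, smul_eq_C_mul]
  have h2 : ∀ q : ℝ[X], psi (-2) (X * q) = psi (-1) q := fun q => by
    rw [psi_X_mul]; norm_num
  have h1 : ∀ q : ℝ[X], psi (-1) (X * q) = psi 0 q := fun q => by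
    rw [psi_X_mul]; norm_num
  have h3 : ∀ q : ℝ[X], psi 0 q + psi (-2) q = X * psi (-1) q := fun q => by
    have := psi_X_sq (-1) q
    norm_num at this
    exact this
  have h5 : ∀ q : ℝ[X], psi (-2) (2 * q) = 2 * psi (-2) q := by
    intro q
    rw [two_mul, map_add, two_mul]
  have := congrArg (psi (-2)) h
  simp only [map_add, map_sub, map_zero, hC, h5, h2, h1] at this
  have a1 := h3 p3
  have a2 := h3 p1
  linear_combination this - a2 + a1

theorem ell_four (j : ℕ) : psi (-1) (ell (j+4)) = (X + C 2) *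
    (psi (-1) (ell (j+3)) - psi (-1) (ell (j+1))) - 2 * psi (-1) (ell (j+2)) - psi (-1) (ell j) := by
  apply psi_lem
  have e : (C (2:ℝ) : ℝ[X]) = 2 := rfl
  rw [e]
  have r0 := ell_rec j
  have r1 := ell_rec (j+1)
  have r2 := ell_rec (j+2)
  rw [show j+2+2 = j+4 from rfl, show j+2+1 = j+3 from rfl] at r2
  rw [show j+1+2 = j+3 from rfl, show j+1+1 = j+2 from rfl] at r1
  linear_combination X * r2 - (1 + X) * r1 - r0

theorem gg_four (j : ℕ) : psi (-1) (gg (j+4)) = (2 * X) *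
    (psi (-1) (gg (j+3)) - psi (-1) (gg (j+1))) - 2 * psi (-1) (gg (j+2)) - psi (-1) (gg j) := by
  have h2 : ∀ q : ℝ[X], psi (-2) (X * q) = psi (-1) q := fun q => by
    rw [psi_X_mul]; norm_num
  have h1 : ∀ q : ℝ[X], psi (-1) (X * q) = psi 0 q := fun q => by
    rw [psi_X_mul]; norm_num
  have h3 : ∀ q : ℝ[X], psi 0 q + psi (-2) q = X * psi (-1) q := fun q => by
    have := psi_X_sq (-1) q
    norm_num at this
    exact this
  have h5 : ∀ q : ℝ[X], psi (-2) (2 * q) = 2 * psi (-2) q := by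
    intro q
    rw [two_mul, map_add, two_mul]
  have key : X * gg (j+4) - 2 * (X * (X * gg (j+3))) - 2 * gg (j+3) + 2 * (X * gg (j+2))
      + 2 * (X * (X * gg (j+1))) + 2 * gg (j+1) + X * gg j = 0 := by
    have r0 := gg_rec j
    have r1 := gg_rec (j+1)
    have r2 := gg_rec (j+2)
    rw [show j+2+2 = j+4 from rfl, show j+2+1 = j+3 from rfl] at r2
    rw [show j+1+2 = j+3 from rfl, show j+1+1 = j+2 from rfl] at r1
    linear_combination X * r2 - 2 * r1 - X * r0
  have := congrArg (psi (-2)) key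
  simp only [map_add, map_sub, map_zero, h5, h2, h1] at this
  have a1 := h3 (gg (j+3))
  have a2 := h3 (gg (j+1))
  linear_combination this - 2 * a2 + 2 * a1

theorem hh_four (j : ℕ) : psi (-1) (hh (j+4)) = (X + C (-2)) *
    (psi (-1) (hh (j+3)) - psi (-1) (hh (j+1))) - 2 * psi (-1) (hh (j+2)) - psi (-1) (hh j) := by
  apply psi_lem
  have e : (C (-2:ℝ) : ℝ[X]) = -2 := by
    rw [Polynomial.C_neg]; rfl
  rw [e]
  have r0 := hh_rec j
  have r1 := hh_rec (j+1)
  have r2 := hh_rec (j+2)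
  rw [show j+2+2 = j+4 from rfl, show j+2+1 = j+3 from rfl] at r2
  rw [show j+1+2 = j+3 from rfl, show j+1+1 = j+2 from rfl] at r1
  linear_combination X * r2 - (1 - X) * r1 + r0

theorem psi_one (s : ℤ) : psi s 1 = S ℝ s := by
  have := psi_C_mul_X_pow s 0 1
  simpa using this

theorem psi_X (s : ℤ) : psi s X = S ℝ (s+1) := by
  have := psi_X_mul s 1
  rw [mul_one, psi_one] at this
  exact this

theorem psi_X2 (s : ℤ) : psi s (X * X) = S ℝ (s+2) := by
  rw [psi_X_mul, psi_X]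
  congr 1; ring

theorem psi_C (s : ℤ) (a : ℝ) : psi s (C a) = C a * S ℝ s := by
  have := psi_C_mul_X_pow s 0 a
  simpa [smul_eq_C_mul] using this

theorem psi_C_mul (s : ℤ) (a : ℝ) (p : ℝ[X]) : psi s (C a * p) = C a * psi s p := by
  rw [← smul_eq_C_mul, map_smul, smul_eq_C_mul]

theorem Q0 : psi (-1) (ell 0) = 0 := by simp [ell]
theorem Q1 : psi (-1) (ell 1) = 0 := by
  rw [ell, psi_one, S_neg_one]
theorem Q2 : psi (-1) (ell 2) = 1 := by
  rw [ell_rec, ell, ell]
  simp [psi_one, psi_X]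
theorem Q3 : psi (-1) (ell 3) = X + C 3 := by
  have : ell 3 = 1 + C 3 * X + X * X := by
    rw [ell_rec, ell_rec]
    simp only [ell]
    have : (C (3:ℝ) : ℝ[X]) = 3 := rfl
    rw [this]
    ring
  rw [this, map_add, map_add, psi_one, psi_C_mul, psi_X, psi_X2]
  norm_num
  ring

theorem G0 : psi (-1) (gg 0) = 0 := by
  rw [gg, psi_C, S_neg_one, mul_zero]
theorem G1 : psi (-1) (gg 1) = 0 := by
  rw [gg, psi_C, S_neg_one, mul_zero]
theorem G2 : psi (-1) (gg 2) = 1 := by
  have : gg 2 = C (1/2) + X := by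
    rw [gg_rec]
    simp only [gg]
    have : (C (1/2:ℝ) : ℝ[X]) * 2 = 1 := by
      rw [show (2:ℝ[X]) = C 2 from rfl, ← Polynomial.C_mul]; norm_num
    linear_combination X * this
  rw [this, map_add, psi_C, psi_X]
  norm_num
theorem G3 : psi (-1) (gg 3) = 2 * X + 1 := by
  have h2 : gg 2 = C (1/2) + X := by
    rw [gg_rec]
    simp only [gg]
    have : (C (1/2:ℝ) : ℝ[X]) * 2 = 1 := by
      rw [show (2:ℝ[X]) = C 2 from rfl, ← Polynomial.C_mul]; norm_num
    linear_combination X * this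
  have : gg 3 = C (1/2) + X + C 2 * (X * X) := by
    rw [gg_rec, h2]
    simp only [gg]
    have : (C (1/2:ℝ) : ℝ[X]) * 2 = 1 := by
      rw [show (2:ℝ[X]) = C 2 from rfl, ← Polynomial.C_mul]; norm_num
    rw [show (C (2:ℝ) : ℝ[X]) = 2 from rfl]
    linear_combination X * this
  rw [this, map_add, map_add, psi_C, psi_X, psi_C_mul, psi_X2,
    show (Polynomial.C (2:ℝ) : ℝ[X]) = 2 from rfl]
  norm_num
  ring

theorem H0 : psi (-1) (hh 0) = 0 := by
  rw [hh, map_neg, psi_one, S_neg_one, neg_zero]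
theorem H1 : psi (-1) (hh 1) = 0 := by
  rw [hh, map_zero]
theorem hh2 : hh 2 = X := by
  rw [hh_rec]; simp only [hh]; ring
theorem H2 : psi (-1) (hh 2) = 1 := by
  rw [hh2, psi_X]; norm_num
theorem H3 : psi (-1) (hh 3) = X - 1 := by
  have : hh 3 = X * X - X := by
    rw [hh_rec, hh2]; simp only [hh]; ring
  rw [this, map_sub, psi_X, psi_X2]; norm_num

theorem comp_two (j : ℕ) : (psi (-1) (ell j)).comp (2 * X - 2) = psi (-1) (gg j) := by
  induction j using Nat.strong_induction_on with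
  | _ j ih =>
    rcases j with _ | _ | _ | _ | j
    · rw [Q0, G0]; simp
    · rw [Q1, G1]; simp
    · rw [Q2, G2]; simp
    · rw [Q3, G3]; simp; rw [show (C (3:ℝ) : ℝ[X]) = 3 from rfl]; ring
    · rw [show j+1+1+1+1 = j+4 from rfl, ell_four, gg_four]
      simp only [sub_comp, mul_comp, add_comp, X_comp, C_comp]
      rw [show j+1+1+1 = j+3 from rfl] at ih
      rw [ih (j+3) (by omega), ih (j+1) (by omega), ih (j+2) (by omega), ih j (by omega)]
      rw [show (C (2:ℝ) : ℝ[X]) = 2 from rfl]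
      simp only [ofNat_comp]
      ring

theorem comp_four (j : ℕ) : (psi (-1) (ell j)).comp (X - 4) = psi (-1) (hh j) := by
  induction j using Nat.strong_induction_on with
  | _ j ih =>
    rcases j with _ | _ | _ | _ | j
    · rw [Q0, H0]; simp
    · rw [Q1, H1]; simp
    · rw [Q2, H2]; simp
    · rw [Q3, H3]; simp; rw [show (C (3:ℝ) : ℝ[X]) = 3 from rfl]; ring
    · rw [show j+1+1+1+1 = j+4 from rfl, ell_four, hh_four]
      simp only [sub_comp, mul_comp, add_comp, X_comp, C_comp]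
      rw [ih (j+3) (by omega), ih (j+1) (by omega), ih (j+2) (by omega), ih j (by omega)]
      rw [show (C (2:ℝ) : ℝ[X]) = 2 from rfl, show (C (-2:ℝ) : ℝ[X]) = -2 from by rw [Polynomial.C_neg]; rfl]
      simp only [ofNat_comp]
      ring

/-- the functional `L` (support `[-6,2]`) -/
noncomputable def L : ℝ[X] →ₗ[ℝ] ℝ :=
  (2:ℝ) • (E0 ∘ₗ (Polynomial.aeval (2 * X - 2 : ℝ[X])).toLinearMap)
   - (1/2:ℝ) • (E0 ∘ₗ (Polynomial.aeval (X - 4 : ℝ[X])).toLinearMap)
   - (1/2:ℝ) • E0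

theorem L_apply (P : ℝ[X]) : L P = 2 * E0 (P.comp (2 * X - 2)) - (1/2) * E0 (P.comp (X - 4))
    - (1/2) * E0 P := by
  simp only [L, LinearMap.sub_apply, LinearMap.smul_apply, LinearMap.comp_apply,
    AlgHom.toLinearMap_apply, smul_eq_mul]
  rfl

theorem coeff_ell_zero (j : ℕ) : (ell (j+1)).coeff 0 = 1 := by
  induction j with
  | zero => simp [ell]
  | succ j ih =>
    rw [ell_rec]
    simp [add_mul, ih]

theorem coeff_ell_one (j : ℕ) : (ell (j+2)).coeff 1 = 2 * j + 1 := by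
  induction j with
  | zero => rw [ell_rec]; simp [ell, coeff_one]
  | succ j ih =>
    rw [ell_rec (j+1), add_mul, one_mul, coeff_add, coeff_add, coeff_X_mul, coeff_X_mul, ih]
    rw [coeff_ell_zero (j+1), coeff_ell_zero j]
    push_cast; ring

theorem coeff_gg_zero (j : ℕ) : (gg j).coeff 0 = 1/2 ∧ (gg (j+1)).coeff 0 = 1/2 := by
  induction j with
  | zero => simp [gg]
  | succ j ih =>
    refine ⟨ih.2, ?_⟩
    rw [gg_rec, mul_assoc, coeff_add, ih.1]
    simp [mul_coeff_zero]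

theorem coeff_gg_one (j : ℕ) : (gg (j+2)).coeff 1 = 1 + (gg j).coeff 1 := by
  rw [gg_rec, coeff_add]
  have : 2 * X * gg (j+1) = C 2 * (X * gg (j+1)) := by
    rw [show (C (2:ℝ) : ℝ[X]) = 2 from rfl]; ring
  rw [this, coeff_C_mul, coeff_X_mul, (coeff_gg_zero j).2]
  norm_num

theorem coeff_hh_zero (j : ℕ) : (hh (j+1)).coeff 0 = 0 := by
  induction j with
  | zero => simp [hh]
  | succ j ih =>
    rw [hh_rec, coeff_sub, mul_coeff_zero, ih, mul_coeff_zero]
    simp

theorem coeff_hh_one (j : ℕ) : (hh (j+2)).coeff 1 = (-1)^j := by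
  induction j with
  | zero => rw [hh2]; simp
  | succ j ih =>
    rw [hh_rec (j+1), sub_mul, one_mul, coeff_sub, coeff_sub, coeff_X_mul, coeff_X_mul, ih,
      coeff_hh_zero (j+1), coeff_hh_zero j]
    ring

theorem gg_one_even (k : ℕ) : (gg (2*k)).coeff 1 = k ∧ (gg (2*k+1)).coeff 1 = k := by
  induction k with
  | zero => simp [gg]
  | succ k ih =>
    constructor
    · rw [show 2*(k+1) = 2*k+2 from by ring, coeff_gg_one, ih.1]; push_cast; ring
    · rw [show 2*(k+1)+1 = 2*k+1+2 from by ring, coeff_gg_one, ih.2]; push_cast; ring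

/-- the key evaluation -/
theorem L_ell (j : ℕ) : L (psi (-1) (ell (j+2))) = 1 := by
  rw [L_apply, comp_two, comp_four, E0_psi, E0_psi, E0_psi, coeff_ell_one, coeff_hh_one]
  rcases Nat.even_or_odd' j with ⟨k, rfl | rfl⟩
  · rw [show 2*k+2 = 2*(k+1) from by ring, (gg_one_even (k+1)).1]
    rw [pow_mul]; push_cast; norm_num; ring
  · rw [show 2*k+1+2 = 2*(k+1)+1 from by ring, (gg_one_even (k+1)).2]
    rw [pow_succ, pow_mul]; push_cast; norm_num; ring

theorem L_ell_one : L (psi (-1) (ell 1)) = 0 := by rw [Q1, map_zero]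
theorem L_ell_zero : L (psi (-1) (ell 0)) = 0 := by rw [Q0, map_zero]

end Pool.Agent.Q137.AZ
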