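import Mathlib

set_option autoImplicit false

open Polynomial Real

namespace Pool.Agent.Q137.AZ

open scoped Matrix

/-- bilinear form with prescribed values on monomials -/
noncomputable def bil (c : ℕ → ℕ → ℝ) : ℝ[X] →ₗ[ℝ] ℝ[X] →ₗ[ℝ] ℝ :=
  Polynomial.lsum (fun i => LinearMap.toSpanSingleton ℝ (ℝ[X] →ₗ[ℝ] ℝ)
    (Polynomial.lsum (fun j => (c i j) • (LinearMap.id : ℝ →ₗ[ℝ] ℝ))))

theorem bil_monomial (c : ℕ → ℕ → ℝ) (i j : ℕ) (a b : ℝ) :
    bil c (monomial i a) (monomial j b) = a * b * c i j := by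
  unfold bil
  rw [Polynomial.lsum_apply, Polynomial.sum_monomial_index _ _ (by simp)]
  rw [LinearMap.toSpanSingleton_apply, LinearMap.smul_apply, Polynomial.lsum_apply,
    Polynomial.sum_monomial_index _ _ (by simp)]
  simp only [LinearMap.smul_apply, LinearMap.id_apply, smul_eq_mul]
  ring

theorem bil_X_pow (c : ℕ → ℕ → ℝ) (i j : ℕ) : bil c (X^i) (X^j) = c i j := by
  rw [X_pow_eq_monomial, X_pow_eq_monomial, bil_monomial]
  ring

/-- two bilinear forms agree on low degree polynomials if they agree on monomials -/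
theorem poly_sum_fin {n : ℕ} (p : ℝ[X]) (h : p.natDegree < n) :
    p = ∑ k : Fin n, p.coeff k • X^(k:ℕ) := by
  conv_lhs => rw [p.as_sum_range' n h]
  rw [Finset.sum_range]
  apply Finset.sum_congr rfl
  intro k _
  rw [smul_eq_C_mul, C_mul_X_pow_eq_monomial]

theorem gram_det (β : ℝ[X] →ₗ[ℝ] ℝ[X] →ₗ[ℝ] ℝ) {n : ℕ} (f g : Fin n → ℝ[X])
    (hf : ∀ i, (f i).natDegree = i) (hfm : ∀ i, (f i).Monic)
    (hg : ∀ i, (g i).natDegree = i) (hgm : ∀ i, (g i).Monic) :
    (Matrix.of fun i j => β (f i) (g j)).det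
      = (Matrix.of fun i j : Fin n => β (X^(i:ℕ)) (X^(j:ℕ))).det := by
  have key : (Matrix.of fun i j => β (f i) (g j))
      = (Matrix.of (fun (i j : Fin n) => (f j).coeff i))ᵀ
        * (Matrix.of fun i j : Fin n => β (X^(i:ℕ)) (X^(j:ℕ)))
        * (Matrix.of (fun (i j : Fin n) => (g j).coeff i)) := by
    ext i j
    rw [Matrix.mul_apply]
    simp only [Matrix.of_apply, Matrix.mul_apply, Matrix.transpose_apply]
    conv_lhs => rw [poly_sum_fin (f i) (lt_of_eq_of_lt (hf i) i.2),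
      poly_sum_fin (g j) (lt_of_eq_of_lt (hg j) j.2)]
    rw [map_sum]
    apply Finset.sum_congr rfl
    intro l _
    rw [map_sum, LinearMap.sum_apply, Finset.sum_mul]
    apply Finset.sum_congr rfl
    intro k _
    simp only [map_smul, LinearMap.smul_apply, smul_eq_mul]
    ring
  rw [key, Matrix.det_mul, Matrix.det_mul, Matrix.det_transpose,
    Matrix.det_matrixOfPolynomials f hf hfm, Matrix.det_matrixOfPolynomials g hg hgm]
  ring

theorem gram_det' (β : ℝ[X] →ₗ[ℝ] ℝ[X] →ₗ[ℝ] ℝ) {n : ℕ} (f g : Fin n → ℝ[X])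
    (f' g' : Fin n → ℝ[X])
    (hf : ∀ i, (f i).natDegree = i) (hfm : ∀ i, (f i).Monic)
    (hg : ∀ i, (g i).natDegree = i) (hgm : ∀ i, (g i).Monic)
    (hf' : ∀ i, (f' i).natDegree = i) (hfm' : ∀ i, (f' i).Monic)
    (hg' : ∀ i, (g' i).natDegree = i) (hgm' : ∀ i, (g' i).Monic) :
    (Matrix.of fun i j => β (f i) (g j)).det = (Matrix.of fun i j => β (f' i) (g' j)).det := by
  rw [gram_det β f g hf hfm hg hgm, gram_det β f' g' hf' hfm' hg' hgm']

theorem det_bounds {n : ℕ} (G : Matrix (Fin n) (Fin n) ℝ) (hG : G.IsHermitian) (a b : ℝ)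
    (ha : 0 ≤ a) (hl : ∀ x : Fin n → ℝ, a * ∑ i, x i ^ 2 ≤ x ⬝ᵥ (G *ᵥ x))
    (hu : ∀ x : Fin n → ℝ, x ⬝ᵥ (G *ᵥ x) ≤ b * ∑ i, x i^2) :
    a^n ≤ G.det ∧ G.det ≤ b^n := by
  have hev : ∀ i, a ≤ hG.eigenvalues i ∧ hG.eigenvalues i ≤ b := by
    intro i
    have h1 := hG.eigenvalues_eq i
    have hn : ∑ k, (hG.eigenvectorBasis i) k ^ 2 = 1 := by
      have h2 := hG.eigenvectorBasis.orthonormal.1 i
      have h3 := EuclideanSpace.norm_sq_eq (hG.eigenvectorBasis i)
      rw [h2] at h3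
      simp only [one_pow, Real.norm_eq_abs, sq_abs] at h3
      exact h3.symm
    have h4 : hG.eigenvalues i
        = (⇑(hG.eigenvectorBasis i) : Fin n → ℝ) ⬝ᵥ (G *ᵥ ⇑(hG.eigenvectorBasis i)) := by
      rw [h1]
      simp
    have h5 := hl (⇑(hG.eigenvectorBasis i))
    have h6 := hu (⇑(hG.eigenvectorBasis i))
    rw [hn, mul_one, ← h4] at h5 h6
    exact ⟨h5, h6⟩
  have hdet : G.det = ∏ i, hG.eigenvalues i := by
    have := hG.det_eq_prod_eigenvalues
    simpa using this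
  rw [hdet]
  constructor
  · calc a^n = ∏ _i : Fin n, a := by simp
      _ ≤ _ := Finset.prod_le_prod (fun i _ => ha) (fun i _ => (hev i).1)
  · calc ∏ i, hG.eigenvalues i ≤ ∏ _i : Fin n, b :=
          Finset.prod_le_prod (fun i _ => ha.trans (hev i).1) (fun i _ => (hev i).2)
      _ = b^n := by simp

end Pool.Agent.Q137.AZ
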