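import Pool.Agent.Q137.AZ.Quad

set_option autoImplicit false

open Polynomial Real

namespace Pool.Agent.Q137.AZ

open scoped Matrix

theorem prod_two_pow (n : ℕ) : (∏ i : Fin n, (2:ℝ)^(i:ℕ)) ^ 2 = 2^(n*(n-1)) := by
  rw [Finset.prod_pow_eq_pow_sum, ← pow_mul]
  congr 1
  rw [Fin.sum_univ_eq_sum_range (fun i => i) n]
  exact Finset.sum_range_id_mul_two n

theorem hankel_bounds (Λ : ℝ[X] →ₗ[ℝ] ℝ) (n : ℕ) (a b : ℝ) (ha : 0 ≤ a)
    (hq : ∀ c : ℕ → ℝ, a * ∑ i ∈ Finset.range n, c i ^ 2 ≤ Λ (RR c n * RR c n) ∧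
      Λ (RR c n * RR c n) ≤ b * ∑ i ∈ Finset.range n, c i ^ 2) :
    2^(n*(n-1)) * a^n ≤ (Matrix.of fun i j : Fin n => symf Λ (X^(i:ℕ)) (X^(j:ℕ))).det ∧
    (Matrix.of fun i j : Fin n => symf Λ (X^(i:ℕ)) (X^(j:ℕ))).det ≤ 2^(n*(n-1)) * b^n := by
  let G : Matrix (Fin n) (Fin n) ℝ :=
    Matrix.of fun i j => (1/2)^(i:ℕ) * (1/2)^(j:ℕ) * Λ (VV i * VV j)
  have h1 : (Matrix.of fun i j : Fin n => symf Λ (X^(i:ℕ)) (X^(j:ℕ))).det
      = (Matrix.of fun i j : Fin n => symf Λ (VV i) (VV j)).det :=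
    (gram_det (symf Λ) (fun i : Fin n => VV i) (fun i : Fin n => VV i)
      (fun i => (VV_monic i).2) (fun i => (VV_monic i).1)
      (fun i => (VV_monic i).2) (fun i => (VV_monic i).1)).symm
  have h2 : (Matrix.of fun i j : Fin n => symf Λ (VV i) (VV j))
      = Matrix.diagonal (fun i : Fin n => (2:ℝ)^(i:ℕ)) * G
        * Matrix.diagonal (fun i : Fin n => (2:ℝ)^(i:ℕ)) := by
    ext i j
    rw [Matrix.mul_diagonal, Matrix.diagonal_mul]
    simp only [G, Matrix.of_apply, symf_apply]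
    have e : ∀ k : ℕ, (2:ℝ)^k * (1/2)^k = 1 := by
      intro k
      rw [← mul_pow]; norm_num
    calc Λ (VV i * VV j) = ((2:ℝ)^(i:ℕ) * (1/2)^(i:ℕ)) * ((2:ℝ)^(j:ℕ) * (1/2)^(j:ℕ))
          * Λ (VV i * VV j) := by rw [e, e]; ring
      _ = _ := by ring
  have h3 : (Matrix.of fun i j : Fin n => symf Λ (X^(i:ℕ)) (X^(j:ℕ))).det
      = 2^(n*(n-1)) * G.det := by
    rw [h1, h2, Matrix.det_mul, Matrix.det_mul, Matrix.det_diagonal, ← prod_two_pow]
    ring
  have hG : G.IsHermitian := by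
    ext i j
    simp only [G, Matrix.conjTranspose_apply, Matrix.of_apply, star_trivial]
    rw [mul_comm (VV j : ℝ[X])]
    ring
  have hquad : ∀ x : Fin n → ℝ, ∃ c : ℕ → ℝ, x ⬝ᵥ (G *ᵥ x) = Λ (RR c n * RR c n) ∧
      ∑ i, x i ^ 2 = ∑ i ∈ Finset.range n, c i ^ 2 := by
    intro x
    refine ⟨fun i => if h : i < n then x ⟨i, h⟩ else 0, ?_, ?_⟩
    · have hR : RR (fun i => if h : i < n then x ⟨i, h⟩ else 0) n
          = ∑ i : Fin n, (x i * (1/2)^(i:ℕ)) • VV i := by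
        unfold RR
        rw [Finset.sum_range]
        apply Finset.sum_congr rfl
        intro i _
        simp
      rw [hR, Finset.sum_mul_sum, map_sum]
      simp only [dotProduct, Matrix.mulVec]
      apply Finset.sum_congr rfl
      intro i _
      rw [map_sum, Finset.mul_sum]
      apply Finset.sum_congr rfl
      intro j _
      simp only [G, Matrix.of_apply]
      rw [smul_mul_smul_comm, map_smul, smul_eq_mul]
      ring
    · rw [Finset.sum_range]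
      apply Finset.sum_congr rfl
      intro i _
      simp
  have h4 := det_bounds G hG a b ha (fun x => by
      obtain ⟨c, hc1, hc2⟩ := hquad x
      rw [hc1, hc2]; exact (hq c).1) (fun x => by
      obtain ⟨c, hc1, hc2⟩ := hquad x
      rw [hc1, hc2]; exact (hq c).2)
  rw [h3]
  have h5 : (0:ℝ) < 2^(n*(n-1)) := by positivity
  exact ⟨mul_le_mul_of_nonneg_left h4.1 h5.le, mul_le_mul_of_nonneg_left h4.2 h5.le⟩

/-- Hankel determinants of `L` -/
noncomputable def HL (n : ℕ) : ℝ := (Matrix.of fun i j : Fin n => symf L (X^(i:ℕ)) (X^(j:ℕ))).det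
/-- Hankel determinants of `(2-X)L` -/
noncomputable def HT (n : ℕ) : ℝ :=
  (Matrix.of fun i j : Fin n => symf (twist L) (X^(i:ℕ)) (X^(j:ℕ))).det

theorem HL_bounds (n : ℕ) : 2^(n*(n-1)) * (1/2)^n ≤ HL n ∧ HL n ≤ 2^(n*(n-1)) * 2^n :=
  hankel_bounds L n (1/2) 2 (by norm_num) (fun c => L_quad c n)

theorem HT_bounds (n : ℕ) : 2^((n+1)*n) * (1/((n:ℝ)+1)^2)^(n+1) ≤ HT (n+1) ∧
    HT (n+1) ≤ 2^((n+1)*n) * 16^(n+1) :=
  hankel_bounds (twist L) (n+1) (1/((n:ℝ)+1)^2) 16 (by positivity) (fun c => twist_quad c n)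

/-- the leading minors of the matrix of the problem -/
theorem det_A (a : ℕ → ℕ → ℝ) (skew : ∀ i j, a i j = - a j i)
    (h1 : ∀ j, 1 < j → a 1 j = 2)
    (h2 : ∀ i j, 1 < i → i + 1 < j → a i j = a (i-1) j + a i (j-1) + a (i-1) (j-1))
    (h3 : ∀ i, 1 < i → a i (i+1) = a (i-1) (i+1) + a (i-1) i + 2 * (-1)^(i-1)) (n : ℕ) :
    (Matrix.of fun i j : Fin (2*n) => a (i+1) (j+1)).det = (2^n * HL n)^2 := by
  have hm : (Matrix.of fun i j : Fin (2*n) => a (i+1) (j+1))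
      = (2:ℝ) • (Matrix.of fun i j : Fin (2*n) => beta L (ell (i+1)) (ell (j+1))) := by
    ext i j
    rw [Matrix.smul_apply, Matrix.of_apply, Matrix.of_apply, a_eq a skew h1 h2 h3]
    rfl
  rw [hm, Matrix.det_smul, Fintype.card_fin]
  have h4 := gram_det (beta L) (fun i : Fin (2*n) => ell (i+1)) (fun i : Fin (2*n) => ell (i+1))
      (fun i => (ell_monic i).2) (fun i => (ell_monic i).1)
      (fun i => (ell_monic i).2) (fun i => (ell_monic i).1)
  rw [h4]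
  have h5 : (Matrix.of fun i j : Fin (2*n) => beta L (X^(i:ℕ)) (X^(j:ℕ))).det
      = (Matrix.of fun i j : Fin (n+n) => beta L (X^(i:ℕ)) (X^(j:ℕ))).det := by
    rw [← Matrix.det_submatrix_equiv_self (finCongr (two_mul n))]
    congr 1
  rw [h5, toep_det]
  unfold HL
  ring

end Pool.Agent.Q137.AZ
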