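import Pool.Agent.Q137.AZ.Bord

set_option autoImplicit false

open Polynomial Real Filter Topology

namespace Pool.Agent.Q137.AZ

/-- existence of the array -/
theorem mm_step (i j : ℕ) (hi : 1 < i) (hj : i + 1 < j) :
    2 * mm i j = 2 * mm (i-1) j + 2 * mm i (j-1) + 2 * mm (i-1) (j-1) := by
  obtain ⟨i', rfl⟩ : ∃ i', i = i' + 1 + 1 := ⟨i - 2, by omega⟩
  obtain ⟨d, rfl⟩ : ∃ d, j = i' + 1 + 1 + (d + 1) + 1 := ⟨j - (i' + 4), by omega⟩
  have e := E_eq (i'+1) (d+1)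
  simp only [Nat.add_sub_cancel]
  simp at e
  linear_combination 2 * e

theorem mm_diag (i : ℕ) (hi : 1 < i) :
    2 * mm i (i+1) = 2 * mm (i-1) (i+1) + 2 * mm (i-1) i + 2 * (-1)^(i-1) := by
  obtain ⟨i', rfl⟩ : ∃ i', i = i' + 1 + 1 := ⟨i - 2, by omega⟩
  have e := E_eq (i'+1) 0
  simp only [Nat.add_sub_cancel]
  rw [add_zero, mm_self] at e
  simp at e
  linear_combination 2 * e

theorem log_lim (x : ℕ → ℝ) (h : Tendsto (fun n : ℕ => Real.log (x n) / (n:ℝ)^2) atTop (𝓝 (Real.log 2)))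
    (hx : ∀ᶠ n in atTop, 0 < x n) (c : ℕ → ℝ)
    (hc : Tendsto (fun n : ℕ => c n * (n:ℝ)^2) atTop (𝓝 (1/2))) :
    Tendsto (fun n : ℕ => (x n) ^ (c n)) atTop (𝓝 (√2)) := by
  have h1 : Tendsto (fun n : ℕ => Real.exp ((Real.log (x n) / (n:ℝ)^2) * (c n * (n:ℝ)^2))) atTop
      (𝓝 (Real.exp (Real.log 2 * (1/2)))) :=
    (Real.continuous_exp.tendsto _).comp (h.mul hc)
  have h2 : Real.exp (Real.log 2 * (1/2)) = √2 := by
    rw [Real.sqrt_eq_rpow, Real.rpow_def_of_pos (by norm_num)]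
  rw [h2] at h1
  apply h1.congr'
  filter_upwards [hx, eventually_gt_atTop 0] with n hn hn0
  have hn' : ((n:ℝ)^2) ≠ 0 := by positivity
  rw [Real.rpow_def_of_pos hn]
  congr 1
  field_simp

theorem lim_c1 : Tendsto (fun n : ℕ => ((2:ℝ)/(2*(n:ℝ))^2) * (n:ℝ)^2) atTop (𝓝 (1/2)) := by
  apply Tendsto.congr' _ tendsto_const_nhds
  filter_upwards [eventually_gt_atTop 0] with n hn
  have hn' : ((n:ℝ)) ≠ 0 := by positivity
  field_simp

theorem lim_inv : Tendsto (fun n : ℕ => (1:ℝ)/(n:ℝ)) atTop (𝓝 0) :=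
  tendsto_const_div_atTop_nhds_zero_nat 1

theorem lim_c2 : Tendsto (fun n : ℕ => ((2:ℝ)/(2*((n:ℝ)+1)-1)^2) * (n:ℝ)^2) atTop (𝓝 (1/2)) := by
  have h1 : Tendsto (fun n : ℕ => (2:ℝ)/(2 + (1:ℝ)/(n:ℝ))^2) atTop (𝓝 (2/(2+0)^2)) := by
    apply Tendsto.div tendsto_const_nhds _ (by norm_num)
    exact (tendsto_const_nhds.add lim_inv).pow 2
  norm_num at h1
  norm_num
  apply h1.congr'
  filter_upwards [eventually_gt_atTop 0] with n hn
  have hn' : (0:ℝ) < n := by positivity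
  have h2 : (2:ℝ)*((n:ℝ)+1)-1 ≠ 0 := by
    have : (0:ℝ) < 2*((n:ℝ)+1)-1 := by linarith
    exact this.ne'
  have h3 : (2:ℝ) + (n:ℝ)⁻¹ ≠ 0 := by positivity
  field_simp
  ring

/-- the two bounds for the first sequence -/
theorem uA_bounds (n : ℕ) : (2:ℝ)^(n^2) ≤ 2^n * (2^n * HL n) ∧ 2^n * HL n ≤ 2^(n^2+n) := by
  obtain ⟨h1, h2⟩ := HL_bounds n
  have e : n + n*(n-1) = n^2 := by
    rcases n with _ | n
    · rfl
    · simp only [Nat.add_sub_cancel]; ring
  constructor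
  · calc (2:ℝ)^(n^2) = 2^n * (2^(n*(n-1))) := by rw [← pow_add, e]
      _ = 2^n * (2^n * (2^(n*(n-1)) * (1/2)^n)) := by
          have : (2:ℝ)^n * (1/2)^n = 1 := by rw [← mul_pow]; norm_num
          calc (2:ℝ)^n * (2^(n*(n-1))) = 2^n * (2^(n*(n-1))) * ((2:ℝ)^n * (1/2)^n) := by
                rw [this]; ring
            _ = _ := by ring
      _ ≤ _ := by gcongr
  · calc 2^n * HL n ≤ 2^n * (2^(n*(n-1)) * 2^n) := by gcongr
      _ = (2:ℝ)^(n + n*(n-1)) * 2^n := by rw [pow_add]; ring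
      _ = _ := by rw [e, pow_add]

theorem uA_lim : Tendsto (fun n : ℕ => Real.log (2^n * HL n) / (n:ℝ)^2) atTop
    (𝓝 (Real.log 2)) := by
  have hlow : Tendsto (fun n : ℕ => (1 - (1:ℝ)/(n:ℝ)) * Real.log 2) atTop (𝓝 (Real.log 2)) := by
    have := (tendsto_const_nhds (x := (1:ℝ)) (f := atTop)).sub lim_inv
    have := this.mul_const (Real.log 2)
    simpa using this
  have hup : Tendsto (fun n : ℕ => (1 + (1:ℝ)/(n:ℝ)) * Real.log 2) atTop (𝓝 (Real.log 2)) := by
    have := (tendsto_const_nhds (x := (1:ℝ)) (f := atTop)).add lim_inv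
    have := this.mul_const (Real.log 2)
    simpa using this
  have l2 : 0 < Real.log 2 := Real.log_pos (by norm_num)
  apply tendsto_of_tendsto_of_tendsto_of_le_of_le' hlow hup
  · filter_upwards [eventually_gt_atTop 0] with n hn
    have hn' : (0:ℝ) < n := by positivity
    obtain ⟨h1, h2⟩ := uA_bounds n
    have hpos : 0 < 2^n * HL n := by
      have : (0:ℝ) < 2^n * (2^n * HL n) := lt_of_lt_of_le (by positivity) h1
      exact pos_of_mul_pos_right this (by positivity)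
    have h3 : (n:ℝ)^2 * Real.log 2 ≤ (n:ℝ) * Real.log 2 + Real.log (2^n * HL n) := by
      have := Real.log_le_log (by positivity) h1
      rw [Real.log_mul (by positivity) hpos.ne', Real.log_pow, Real.log_pow] at this
      push_cast at this
      exact this
    rw [le_div_iff₀ (by positivity)]
    have : (1 - (1:ℝ)/(n:ℝ)) * Real.log 2 * (n:ℝ)^2 = (n:ℝ)^2 * Real.log 2 - (n:ℝ) * Real.log 2 := by
      field_simp
    rw [this]; linarith
  · filter_upwards [eventually_gt_atTop 0] with n hn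
    have hn' : (0:ℝ) < n := by positivity
    obtain ⟨h1, h2⟩ := uA_bounds n
    have hpos : 0 < 2^n * HL n := by
      have : (0:ℝ) < 2^n * (2^n * HL n) := lt_of_lt_of_le (by positivity) h1
      exact pos_of_mul_pos_right this (by positivity)
    have h3 : Real.log (2^n * HL n) ≤ ((n:ℝ)^2 + n) * Real.log 2 := by
      have := Real.log_le_log hpos h2
      rw [Real.log_pow] at this
      push_cast at this
      exact this
    rw [div_le_iff₀ (by positivity)]
    have : (1 + (1:ℝ)/(n:ℝ)) * Real.log 2 * (n:ℝ)^2 = ((n:ℝ)^2 + (n:ℝ)) * Real.log 2 := by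
      field_simp
    rw [this]; linarith

theorem uD_bounds (n : ℕ) (hn : 0 < n) :
    (2:ℝ)^(n^2) * (1/(n:ℝ)^2)^n ≤ 2^(n+1) * HT n ∧ 2^(n+1) * HT n ≤ 2^(n^2+1) * 16^n := by
  obtain ⟨k, rfl⟩ : ∃ k, n = k + 1 := ⟨n - 1, by omega⟩
  obtain ⟨h1, h2⟩ := HT_bounds k
  push_cast
  constructor
  · calc (2:ℝ)^((k+1)^2) * (1/((k:ℝ)+1)^2)^(k+1)
        ≤ 2^((k+1)^2+1) * (1/((k:ℝ)+1)^2)^(k+1) := by
          apply mul_le_mul_of_nonneg_right _ (by positivity)
          exact pow_le_pow_right₀ (by norm_num) (by omega)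
      _ = 2^(k+1+1) * (2^((k+1)*k) * (1/((k:ℝ)+1)^2)^(k+1)) := by
          rw [← mul_assoc, ← pow_add]; congr 2; ring
      _ ≤ _ := by gcongr
  · calc 2^(k+1+1) * HT (k+1) ≤ 2^(k+1+1) * (2^((k+1)*k) * 16^(k+1)) := by gcongr
      _ = _ := by rw [← mul_assoc, ← pow_add]; congr 2; ring

theorem uD_lim : Tendsto (fun n : ℕ => Real.log (2^(n+1) * HT n) / (n:ℝ)^2) atTop
    (𝓝 (Real.log 2)) := by
  have hlog : Tendsto (fun n : ℕ => Real.log (n:ℝ) / (n:ℝ)) atTop (𝓝 0) := by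
    have h := Real.tendsto_pow_log_div_mul_add_atTop 1 0 1 (by norm_num)
    have h' := h.comp tendsto_natCast_atTop_atTop
    apply h'.congr
    intro n
    simp
  have hlow : Tendsto (fun n : ℕ => Real.log 2 - 2 * (Real.log (n:ℝ) / (n:ℝ))) atTop
      (𝓝 (Real.log 2)) := by
    have := (tendsto_const_nhds (x := Real.log 2) (f := atTop)).sub (hlog.const_mul 2)
    simpa using this
  have hup : Tendsto (fun n : ℕ => (1 + ((1:ℝ)/(n:ℝ)) * ((1:ℝ)/(n:ℝ))) * Real.log 2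
      + ((1:ℝ)/(n:ℝ)) * Real.log 16) atTop (𝓝 (Real.log 2)) := by
    have := ((((tendsto_const_nhds (x := (1:ℝ)) (f := atTop)).add (lim_inv.mul lim_inv)).mul_const
      (Real.log 2))).add (lim_inv.mul_const (Real.log 16))
    simpa using this
  apply tendsto_of_tendsto_of_tendsto_of_le_of_le' hlow hup
  · filter_upwards [eventually_gt_atTop 0] with n hn
    have hn' : (0:ℝ) < n := by positivity
    obtain ⟨h1, h2⟩ := uD_bounds n hn
    have h3 := Real.log_le_log (by positivity) h1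
    rw [Real.log_mul (by positivity) (by positivity), Real.log_pow, Real.log_pow, one_div,
      Real.log_inv, Real.log_pow] at h3
    push_cast at h3
    rw [le_div_iff₀ (by positivity)]
    have : (Real.log 2 - 2 * (Real.log (n:ℝ) / (n:ℝ))) * (n:ℝ)^2
        = (n:ℝ)^2 * Real.log 2 + (n:ℝ) * -(2 * Real.log (n:ℝ)) := by
      field_simp
      ring
    rw [this]; exact h3
  · filter_upwards [eventually_gt_atTop 0] with n hn
    have hn' : (0:ℝ) < n := by positivity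
    obtain ⟨h1, h2⟩ := uD_bounds n hn
    have hpos : 0 < 2^(n+1) * HT n := lt_of_lt_of_le (by positivity) h1
    have h3 := Real.log_le_log hpos h2
    rw [Real.log_mul (x := (2:ℝ)^(n^2+1)) (y := (16:ℝ)^n) (by positivity) (by positivity),
      Real.log_pow, Real.log_pow] at h3
    push_cast at h3
    rw [div_le_iff₀ (by positivity)]
    have : ((1 + ((1:ℝ)/(n:ℝ)) * ((1:ℝ)/(n:ℝ))) * Real.log 2
      + ((1:ℝ)/(n:ℝ)) * Real.log 16) * (n:ℝ)^2
        = ((n:ℝ)^2 + 1) * Real.log 2 + (n:ℝ) * Real.log 16 := by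
      field_simp
    rw [this]; exact h3

end Pool.Agent.Q137.AZ
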