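import Pool.Agent.Q137.AZ.Toep
import Pool.Agent.Q137.AZ.Comp

set_option autoImplicit false

open Polynomial Real

namespace Pool.Agent.Q137.AZ

open scoped Matrix
open Polynomial.Chebyshev

/-- `∑_{i<n} c_i S_i` -/
noncomputable def PP (c : ℕ → ℝ) (n : ℕ) : ℝ[X] := ∑ i ∈ Finset.range n, c i • S ℝ (i:ℕ)

theorem PP_succ (c : ℕ → ℝ) (n : ℕ) : PP c (n+1) = PP c n + c n • S ℝ (n:ℕ) := by
  unfold PP
  rw [Finset.sum_range_succ]

theorem E0_PP_mul_S (c : ℕ → ℝ) (n k : ℕ) : E0 (PP c n * S ℝ k) = if k < n then c k else 0 := by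
  induction n with
  | zero => simp [PP]
  | succ n ih =>
    rw [PP_succ, add_mul, map_add, ih, smul_mul_assoc, map_smul, E0_S_mul_S]
    by_cases h : n = k
    · subst h
      simp
    · by_cases h2 : k < n
      · simp [h, h2, Nat.lt_succ_of_lt h2]
      · have : ¬ (k < n + 1) := by omega
        simp [h, h2, this]

theorem E0_PP_sq (c : ℕ → ℝ) (n : ℕ) : E0 (PP c n * PP c n) = ∑ i ∈ Finset.range n, c i ^ 2 := by
  induction n with
  | zero => simp [PP]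
  | succ n ih =>
    have : PP c (n+1) * PP c (n+1) = PP c n * PP c n + (2 * c n) • (PP c n * S ℝ (n:ℕ))
        + (c n ^ 2) • (S ℝ (n:ℕ) * S ℝ (n:ℕ)) := by
      rw [PP_succ]
      simp only [smul_eq_C_mul, Polynomial.C_mul, Polynomial.C_pow]
      rw [show (Polynomial.C (2:ℝ) : ℝ[X]) = 2 from rfl]
      ring
    rw [this, map_add, map_add, map_smul, map_smul, ih, E0_PP_mul_S, E0_S_mul_S,
      Finset.sum_range_succ]
    simp

theorem X_mul_S (n : ℕ) : (X : ℝ[X]) * S ℝ ((n+1 : ℕ):ℤ) = S ℝ ((n+2:ℕ):ℤ) + S ℝ (n:ℕ) := by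
  have := S_add_two ℝ (n:ℤ)
  push_cast
  rw [this]; ring

/-- the quadratic form of `2 - X` -/
theorem E0_twist (c : ℕ → ℝ) (n : ℕ) : E0 ((2 - X) * (PP c (n+1) * PP c (n+1)))
    = c 0 ^ 2 + ∑ i ∈ Finset.range n, (c i - c (i+1)) ^ 2 + c n ^ 2 := by
  have hX : ∀ P : ℝ[X], E0 ((2 - X) * P) = 2 * E0 P - E0 (X * P) := by
    intro P
    rw [sub_mul, map_sub]
    congr 1
    rw [two_mul, map_add, two_mul]
  have hSS : ∀ n : ℕ, E0 (X * (S ℝ (n:ℕ) * S ℝ (n:ℕ))) = 0 := by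
    intro n
    rcases n with _ | n
    · simp only [Nat.cast_zero, S_zero, mul_one]
      have := E0_S 1
      simpa using this
    · rw [← mul_assoc, X_mul_S, add_mul, map_add, E0_S_mul_S, E0_S_mul_S]
      simp
  induction n with
  | zero =>
    rw [PP_succ]
    simp only [PP, Finset.range_zero, Finset.sum_empty, zero_add]
    rw [hX]
    have : (c 0 • S ℝ ((0:ℕ):ℤ)) * (c 0 • S ℝ ((0:ℕ):ℤ)) = (c 0 ^2) • (S ℝ ((0:ℕ):ℤ) * S ℝ ((0:ℕ):ℤ)) := by
      simp only [smul_eq_C_mul, Polynomial.C_pow]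
      ring
    rw [this, mul_smul_comm, map_smul, map_smul, hSS, E0_S_mul_S]
    simp
    ring
  | succ n ih =>
    have h1 : PP c (n+1+1) * PP c (n+1+1) = PP c (n+1) * PP c (n+1)
        + (2 * c (n+1)) • (PP c (n+1) * S ℝ ((n+1:ℕ):ℤ))
        + (c (n+1) ^ 2) • (S ℝ ((n+1:ℕ):ℤ) * S ℝ ((n+1:ℕ):ℤ)) := by
      rw [PP_succ c (n+1)]
      simp only [smul_eq_C_mul, Polynomial.C_mul, Polynomial.C_pow]
      rw [show (Polynomial.C (2:ℝ) : ℝ[X]) = 2 from rfl]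
      ring
    rw [h1, mul_add, mul_add, map_add, map_add, ih, mul_smul_comm, mul_smul_comm, map_smul,
      map_smul, hX (PP c (n+1) * S ℝ ((n+1:ℕ):ℤ)), hX (S ℝ ((n+1:ℕ):ℤ) * S ℝ ((n+1:ℕ):ℤ)), hSS,
      E0_S_mul_S, E0_PP_mul_S]
    have h2 : E0 (X * (PP c (n+1) * S ℝ ((n+1:ℕ):ℤ))) = c n := by
      rw [mul_left_comm, X_mul_S, mul_add, map_add, E0_PP_mul_S, E0_PP_mul_S]
      simp
    rw [h2, Finset.sum_range_succ]
    simp
    ring

theorem poincare (c : ℕ → ℝ) (i : ℕ) :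
    c i ^ 2 ≤ (i + 1) * (c 0 ^ 2 + ∑ j ∈ Finset.range i, (c j - c (j+1))^2) := by
  induction i with
  | zero => simp
  | succ i ih =>
    rw [Finset.sum_range_succ]
    set D := c 0 ^ 2 + ∑ j ∈ Finset.range i, (c j - c (j+1))^2
    set b := c i - c (i+1) with hb
    have hc : c (i+1) = c i - b := by rw [hb]; ring
    have hk : (0:ℝ) < (i:ℝ) + 1 := by positivity
    have h1 : ((i:ℝ)+1) * (c i - b)^2 ≤ ((i:ℝ)+2) * c i ^ 2 + ((i:ℝ)+1) * ((i:ℝ)+2) * b^2 := by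
      nlinarith [sq_nonneg (c i + ((i:ℝ)+1) * b)]
    rw [hc]
    have h2 : ((i:ℝ)+1) * (c i - b)^2 ≤ ((i:ℝ)+1) * (((i:ℝ)+2) * (D + b^2)) := by
      nlinarith
    have h3 := le_of_mul_le_mul_left h2 hk
    have h4 : D + b^2 = c 0 ^ 2 + (∑ j ∈ Finset.range i, (c j - c (j+1))^2 + b^2) := by
      simp only [D]; ring
    rw [← h4]
    push_cast
    linarith

theorem E0_twist_lower (c : ℕ → ℝ) (n : ℕ) :
    (1 / ((n:ℝ)+1)^2) * ∑ i ∈ Finset.range (n+1), c i ^ 2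
      ≤ E0 ((2 - X) * (PP c (n+1) * PP c (n+1))) := by
  rw [E0_twist]
  set D := c 0 ^ 2 + ∑ i ∈ Finset.range n, (c i - c (i+1)) ^ 2 with hD
  have hD0 : 0 ≤ D := by positivity
  have h1 : ∀ i ∈ Finset.range (n+1), c i ^ 2 ≤ ((n:ℝ)+1) * D := by
    intro i hi
    have hi' : i ≤ n := by
      have := Finset.mem_range.mp hi; omega
    refine (poincare c i).trans ?_
    have : ∑ j ∈ Finset.range i, (c j - c (j+1))^2 ≤ ∑ j ∈ Finset.range n, (c j - c (j+1))^2 := by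
      apply Finset.sum_le_sum_of_subset_of_nonneg
      · intro j hj
        have := Finset.mem_range.mp hj
        exact Finset.mem_range.mpr (by omega)
      · intro j _ _; positivity
    have hin : (i:ℝ) ≤ n := by exact_mod_cast hi'
    have h0 : 0 ≤ ∑ j ∈ Finset.range i, (c j - c (j+1))^2 := by positivity
    apply mul_le_mul (by linarith) (by rw [hD]; linarith) (by positivity) (by positivity)
  have h2 := Finset.sum_le_sum h1
  rw [Finset.sum_const, Finset.card_range, nsmul_eq_mul] at h2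
  push_cast at h2
  have h3 : (0:ℝ) < ((n:ℝ)+1)^2 := by positivity
  have h4 : (1 / ((n:ℝ)+1)^2) * ∑ i ∈ Finset.range (n+1), c i ^ 2 ≤ D := by
    rw [one_div, inv_mul_le_iff₀ h3]
    linarith
  have : 0 ≤ c n ^ 2 := by positivity
  linarith

theorem E0_twist_upper (c : ℕ → ℝ) (n : ℕ) :
    E0 ((2 - X) * (PP c n * PP c n)) ≤ 4 * ∑ i ∈ Finset.range n, c i ^ 2 := by
  have h : 0 ≤ E0 ((2 + X) * (PP c n * PP c n)) := by
    apply E0_nonneg
    intro x hx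
    simp only [eval_mul, eval_add, eval_X, eval_ofNat]
    exact mul_nonneg (by linarith [hx.1]) (mul_self_nonneg _)
  have h2 : E0 ((2 - X) * (PP c n * PP c n)) + E0 ((2 + X) * (PP c n * PP c n))
      = 4 * E0 (PP c n * PP c n) := by
    rw [← map_add]
    have : (2 - X) * (PP c n * PP c n) + (2 + X) * (PP c n * PP c n)
        = (4:ℝ) • (PP c n * PP c n) := by
      rw [smul_eq_C_mul, show (Polynomial.C (4:ℝ) : ℝ[X]) = 4 from rfl]; ring
    rw [this, map_smul, smul_eq_mul]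
  rw [E0_PP_sq] at h2
  linarith

/-- `∑_{i<n} c_i 2^{-i} V_i` -/
noncomputable def RR (c : ℕ → ℝ) (n : ℕ) : ℝ[X] :=
  ∑ i ∈ Finset.range n, (c i * (1/2)^i) • VV i

theorem RR_comp (c : ℕ → ℝ) (n : ℕ) : (RR c n).comp (2 * X - 2) = PP c n := by
  unfold RR PP
  rw [Polynomial.sum_comp]
  apply Finset.sum_congr rfl
  intro i _
  rw [smul_comp, VV_comp, smul_eq_C_mul, smul_eq_C_mul, ← mul_assoc, ← Polynomial.C_mul]
  congr 2
  rw [mul_assoc, ← mul_pow]
  norm_num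

theorem L_quad (c : ℕ → ℝ) (n : ℕ) :
    (1/2) * ∑ i ∈ Finset.range n, c i ^ 2 ≤ L (RR c n * RR c n) ∧
    L (RR c n * RR c n) ≤ 2 * ∑ i ∈ Finset.range n, c i ^ 2 := by
  have hp : ∀ x ∈ Set.Icc (-6:ℝ) 2, 0 ≤ (RR c n * RR c n).eval x := by
    intro x _
    rw [eval_mul]
    exact mul_self_nonneg _
  have h1 := L_lower _ hp
  have h2 := L_upper _ hp
  rw [mul_comp, RR_comp, E0_PP_sq] at h1 h2
  exact ⟨h1, h2⟩

theorem twist_quad (c : ℕ → ℝ) (n : ℕ) :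
    (1 / ((n:ℝ)+1)^2) * ∑ i ∈ Finset.range (n+1), c i ^ 2
      ≤ twist L (RR c (n+1) * RR c (n+1)) ∧
    twist L (RR c (n+1) * RR c (n+1)) ≤ 16 * ∑ i ∈ Finset.range (n+1), c i ^ 2 := by
  have hp : ∀ x ∈ Set.Icc (-6:ℝ) 2, 0 ≤ ((2 - X) * (RR c (n+1) * RR c (n+1))).eval x := by
    intro x hx
    simp only [eval_mul, eval_sub, eval_X, eval_ofNat]
    exact mul_nonneg (by linarith [hx.2]) (mul_self_nonneg _)
  have h1 := L_lower _ hp
  have h2 := L_upper _ hp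
  have e : ((2 - X) * (RR c (n+1) * RR c (n+1))).comp (2 * X - 2)
      = (2:ℝ) • ((2 - X) * (PP c (n+1) * PP c (n+1))) := by
    rw [mul_comp, mul_comp, RR_comp, sub_comp, X_comp, ofNat_comp, smul_eq_C_mul,
      show (Polynomial.C (2:ℝ) : ℝ[X]) = 2 from rfl]
    ring
  rw [e, map_smul, smul_eq_mul] at h1 h2
  have h3 := E0_twist_lower c n
  have h4 := E0_twist_upper c (n+1)
  have h5 : twist L (RR c (n+1) * RR c (n+1)) = L ((2 - X) * (RR c (n+1) * RR c (n+1))) := rfl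
  rw [h5]
  constructor <;> linarith

end Pool.Agent.Q137.AZ
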