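import Pool.Agent.Q137.AZ.Gram
import Pool.Agent.Q137.AZ.Func

set_option autoImplicit false

open Polynomial Real

namespace Pool.Agent.Q137.AZ

open scoped Matrix
open Polynomial.Chebyshev

theorem bilin_ext (B1 B2 : ℝ[X] →ₗ[ℝ] ℝ[X] →ₗ[ℝ] ℝ)
    (h : ∀ i j : ℕ, B1 (X^i) (X^j) = B2 (X^i) (X^j)) : B1 = B2 := by
  apply Polynomial.lhom_ext'
  intro i
  apply LinearMap.ext_ring
  apply Polynomial.lhom_ext'
  intro j
  apply LinearMap.ext_ring
  simp only [LinearMap.comp_apply]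
  have := h i j
  rw [X_pow_eq_monomial, X_pow_eq_monomial] at this
  exact this

/-- the skew form attached to a functional -/
noncomputable def beta (Λ : ℝ[X] →ₗ[ℝ] ℝ) : ℝ[X] →ₗ[ℝ] ℝ[X] →ₗ[ℝ] ℝ :=
  bil (fun i j => Λ (S ℝ ((j:ℤ) - (i:ℤ) - 1)))

theorem beta_X_pow (Λ : ℝ[X] →ₗ[ℝ] ℝ) (i j : ℕ) :
    beta Λ (X^i) (X^j) = Λ (S ℝ ((j:ℤ) - (i:ℤ) - 1)) := bil_X_pow _ i j

theorem beta_shift (Λ : ℝ[X] →ₗ[ℝ] ℝ) (p q : ℝ[X]) :
    beta Λ (X * p) (X * q) = beta Λ p q := by
  have : (beta Λ).compl₁₂ (LinearMap.mulLeft ℝ (X : ℝ[X])) (LinearMap.mulLeft ℝ (X : ℝ[X]))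
      = beta Λ := by
    apply bilin_ext
    intro i j
    simp only [LinearMap.compl₁₂_apply, LinearMap.mulLeft_apply]
    rw [← pow_succ', ← pow_succ', beta_X_pow, beta_X_pow]
    congr 2
    push_cast
    ring
  have h2 := congrArg (fun B : ℝ[X] →ₗ[ℝ] ℝ[X] →ₗ[ℝ] ℝ => B p q) this
  simpa using h2

theorem beta_skew (Λ : ℝ[X] →ₗ[ℝ] ℝ) (p q : ℝ[X]) :
    beta Λ p q = - beta Λ q p := by
  have : beta Λ = - (beta Λ).flip := by
    apply bilin_ext
    intro i j
    simp only [LinearMap.neg_apply, LinearMap.flip_apply]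
    rw [beta_X_pow, beta_X_pow, ← map_neg, ← S_neg_sub_one]
    congr 2
    ring
  have h2 := congrArg (fun B : ℝ[X] →ₗ[ℝ] ℝ[X] →ₗ[ℝ] ℝ => B p q) this
  simpa using h2

theorem beta_self (Λ : ℝ[X] →ₗ[ℝ] ℝ) (p : ℝ[X]) : beta Λ p p = 0 := by
  have := beta_skew Λ p p
  linarith

theorem beta_one (Λ : ℝ[X] →ₗ[ℝ] ℝ) (q : ℝ[X]) : beta Λ 1 q = Λ (psi (-1) q) := by
  induction q using Polynomial.induction_on' with
  | add p q hp hq => rw [map_add, map_add, map_add, hp, hq]
  | monomial k a =>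
    rw [psi_monomial, map_smul]
    have := bil_monomial (fun i j => Λ (S ℝ ((j:ℤ) - (i:ℤ) - 1))) 0 k 1 a
    rw [monomial_zero_one] at this
    unfold beta
    rw [this, smul_eq_mul]
    push_cast
    rw [show (k:ℤ) - 0 - 1 = (k:ℤ) + -1 by ring]
    ring

/-- multiply the functional by `2 - X` -/
noncomputable def twist (Λ : ℝ[X] →ₗ[ℝ] ℝ) : ℝ[X] →ₗ[ℝ] ℝ :=
  Λ ∘ₗ LinearMap.mulLeft ℝ (2 - X : ℝ[X])

theorem beta_twist (Λ : ℝ[X] →ₗ[ℝ] ℝ) (p q : ℝ[X]) :
    beta Λ ((X - 1) * p) ((X - 1) * q) = beta (twist Λ) p q := by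
  have : (beta Λ).compl₁₂ (LinearMap.mulLeft ℝ (X - 1 : ℝ[X]))
      (LinearMap.mulLeft ℝ (X - 1 : ℝ[X])) = beta (twist Λ) := by
    apply bilin_ext
    intro i j
    simp only [LinearMap.compl₁₂_apply, LinearMap.mulLeft_apply]
    rw [sub_mul, sub_mul, one_mul, one_mul, map_sub, map_sub, LinearMap.sub_apply,
      LinearMap.sub_apply, ← pow_succ', ← pow_succ', beta_X_pow, beta_X_pow, beta_X_pow,
      beta_X_pow, beta_X_pow]
    unfold twist
    rw [LinearMap.comp_apply, LinearMap.mulLeft_apply]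
    rw [← map_sub, ← map_sub, ← map_sub]
    congr 1
    have e := S_add_one ℝ ((j:ℤ) - (i:ℤ) - 1)
    push_cast
    rw [show (j:ℤ) + 1 - ((i:ℤ) + 1) - 1 = (j:ℤ) - (i:ℤ) - 1 by ring,
      show (j:ℤ) + 1 - (i:ℤ) - 1 = (j:ℤ) - (i:ℤ) - 1 + 1 by ring,
      show (j:ℤ) - ((i:ℤ) + 1) - 1 = (j:ℤ) - (i:ℤ) - 1 - 1 by ring, e]
    ring
  have h2 := congrArg (fun B : ℝ[X] →ₗ[ℝ] ℝ[X] →ₗ[ℝ] ℝ => B p q) this
  simpa using h2

/-- `m i j = β(ℓ_i, ℓ_j)` for the functional `L` -/
noncomputable def mm (i j : ℕ) : ℝ := beta L (ell i) (ell j)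

theorem mm_self (i : ℕ) : mm i i = 0 := beta_self _ _
theorem mm_skew (i j : ℕ) : mm i j = - mm j i := beta_skew _ _ _
theorem mm_zero (j : ℕ) : mm 0 j = 0 := by
  unfold mm
  rw [show ell 0 = 0 from by simp [ell], map_zero, LinearMap.zero_apply]
theorem mm_one (j : ℕ) : mm 1 (j+2) = 1 := by
  unfold mm
  rw [show ell 1 = 1 from by simp [ell], beta_one, L_ell]

theorem mm_rec (i j : ℕ) : mm (i+2) (j+2) = mm (i+1) (j+2) + mm (i+2) (j+1) + mm i (j+1)
    + mm (i+1) j + mm i j := by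
  have hx : ∀ k, ell (k+2) - ell (k+1) = X * (ell (k+1) + ell k) := by
    intro k
    rw [ell_rec]; ring
  have h := beta_shift L (ell (i+1) + ell i) (ell (j+1) + ell j)
  rw [← hx i, ← hx j] at h
  simp only [map_add, map_sub, LinearMap.add_apply, LinearMap.sub_apply] at h
  unfold mm
  linear_combination h

/-- `E i j = m i j - m (i-1) j - m i (j-1) - m (i-1) (j-1)` with shifted indices -/
theorem E_rec (i j : ℕ) :
    mm (i+2) (j+2) - mm (i+1) (j+2) - mm (i+2) (j+1) - mm (i+1) (j+1)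
     = -(mm (i+1) (j+1) - mm i (j+1) - mm (i+1) j - mm i j) := by
  rw [mm_rec]; ring

theorem E_eq (i d : ℕ) :
    mm (i+1) (i+1+d+1) - mm i (i+1+d+1) - mm (i+1) (i+1+d) - mm i (i+1+d)
     = (-1)^i * (if d = 0 then 1 else 0) := by
  induction i with
  | zero =>
    simp only [zero_add, pow_zero, one_mul]
    rw [mm_zero, mm_zero]
    rcases d with _ | d
    · rw [show 1 + 0 + 1 = 0 + 2 from rfl, mm_one, show 1 + 0 = 1 from rfl, mm_self]; simp
    · rw [show 1 + (d+1) + 1 = (d+1) + 2 by ring, mm_one, show 1 + (d+1) = d + 2 by ring, mm_one]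
      simp
  | succ i ih =>
    have := E_rec i (i+1+d)
    rw [show i + 1 + 1 + d + 1 = i + 1 + d + 2 by ring, show i + 1 + 1 + d = i + 1 + d + 1 by ring]
    rw [show i + 1 + 1 = i + 2 by ring]
    rw [this, ih]
    ring

/-- the matrix of the problem equals `2 m` -/
theorem a_eq (a : ℕ → ℕ → ℝ) (skew : ∀ i j, a i j = - a j i)
    (h1 : ∀ j, 1 < j → a 1 j = 2)
    (h2 : ∀ i j, 1 < i → i + 1 < j → a i j = a (i-1) j + a i (j-1) + a (i-1) (j-1))
    (h3 : ∀ i, 1 < i → a i (i+1) = a (i-1) (i+1) + a (i-1) i + 2 * (-1)^(i-1)) :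
    ∀ i j, a (i+1) (j+1) = 2 * mm (i+1) (j+1) := by
  have up : ∀ i d, a (i+1) (i+1+d+1) = 2 * mm (i+1) (i+1+d+1) := by
    intro i
    induction i with
    | zero =>
      intro d
      rw [zero_add, h1 _ (by omega), show 1 + d + 1 = d + 2 by ring, mm_one]; norm_num
    | succ i ih =>
      intro d
      induction d with
      | zero =>
        have e := E_eq (i+1) 0
        have h := h3 (i+1+1) (by omega)
        simp only [add_zero, Nat.add_sub_cancel] at e h ⊢
        rw [h]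
        have e1 := ih 1
        have e2 := ih 0
        simp only [add_zero] at e2
        rw [show i+1+1+1 = i + 1 + 1 + 1 from rfl] at e1
        rw [e1, e2]
        rw [mm_self] at e
        simp only [if_true, mul_one] at e
        linear_combination -2 * e
      | succ d ihd =>
        have e := E_eq (i+1) (d+1)
        have h := h2 (i+1+1) (i+1+1+(d+1)+1) (by omega) (by omega)
        simp only [Nat.add_sub_cancel] at h
        rw [h]
        have e1 := ih (d+2)
        have e2 := ih (d+1)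
        rw [show i+1+1+(d+1)+1 = i+1+(d+2)+1 by ring] at e ⊢
        rw [show i+1+1+(d+1) = i+1+(d+1)+1 by ring] at e ⊢
        rw [show i+1+1+d+1 = i+1+(d+1)+1 by ring] at ihd
        rw [e1, e2, ihd]
        simp at e
        linear_combination -2 * e
  intro i j
  rcases lt_trichotomy i j with h | h | h
  · obtain ⟨d, rfl⟩ := Nat.exists_eq_add_of_lt h
    have := up i d
    rw [show i+d+1+1 = i+1+d+1 by ring]; exact this
  · subst h
    rw [mm_self]
    have := skew (i+1) (i+1)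
    linarith
  · obtain ⟨d, rfl⟩ := Nat.exists_eq_add_of_lt h
    have := up j d
    rw [skew, mm_skew, show j+d+1+1 = j+1+d+1 by ring, this]
    ring

theorem ell_monic (i : ℕ) : (ell (i+1)).Monic ∧ (ell (i+1)).natDegree = i := by
  induction i using Nat.strong_induction_on with
  | _ i ih =>
    rcases i with _ | _ | i
    · simp [ell]
    · have : ell (0+1+1) = X + C 1 := by
        rw [ell_rec]; simp [ell]; ring
      rw [this]
      exact ⟨monic_X_add_C _, natDegree_X_add_C _⟩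
    · obtain ⟨m1, d1⟩ := ih (i+1) (by omega)
      obtain ⟨m0, d0⟩ := ih i (by omega)
      rw [show i+1+1+1 = i+1+2 from rfl, ell_rec, show i+1+1 = i+1+1 from rfl]
      have hx : (1 + X : ℝ[X]) = X + C 1 := by rw [C_1]; ring
      have M1 : ((1 + X) * ell (i+1+1)).Monic := by
        rw [hx]; exact (monic_X_add_C _).mul m1
      have D1 : ((1 + X) * ell (i+1+1)).natDegree = i + 2 := by
        rw [hx, (monic_X_add_C _).natDegree_mul m1, natDegree_X_add_C, d1]; ring
      have D0 : (X * ell (i+1)).natDegree = i + 1 := by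
        rw [monic_X.natDegree_mul m0, natDegree_X, d0]; ring
      have hlt : (X * ell (i+1)).degree < ((1 + X) * ell (i+1+1)).degree := by
        apply degree_lt_degree
        rw [D0, D1]; omega
      refine ⟨M1.add_of_left hlt, ?_⟩
      rw [natDegree_add_eq_left_of_degree_lt hlt, D1]

end Pool.Agent.Q137.AZ
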