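import Pool.Agent.Q137.AZ.Skew

set_option autoImplicit false

open Polynomial Real

namespace Pool.Agent.Q137.AZ

open scoped Matrix
open Polynomial.Chebyshev

theorem S_prod (i j : ℕ) : (S ℝ i - S ℝ ((i:ℤ) - 1)) * (S ℝ j + S ℝ ((j:ℤ) - 1))
    = S ℝ ((j:ℤ) - (i:ℤ) - 1) + S ℝ ((i:ℤ) + (j:ℤ)) := by
  induction i using Nat.strong_induction_on with
  | _ i ih =>
    rcases i with _ | _ | i
    · simp only [Nat.cast_zero, zero_sub, zero_add, S_neg_one, S_zero, sub_zero, one_mul]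
      ring
    · simp only [zero_add, Nat.cast_one, sub_self, S_zero, S_one]
      have h1 := S_add_one ℝ (j:ℤ)
      have h2 := S_sub_two ℝ (j:ℤ)
      rw [show (j:ℤ) - 1 - 1 = (j:ℤ) - 2 by ring, h2, add_comm 1 (j:ℤ), h1]
      ring
    · have a1 := ih (i+1) (by omega)
      have a0 := ih i (by omega)
      push_cast at a1 a0 ⊢
      have h1 := S_add_one ℝ ((i:ℤ) + 1)
      have h2 := S_add_one ℝ ((i:ℤ) + 1 - 1)
      have h3 := S_sub_one ℝ ((j:ℤ) - ((i:ℤ)+1) - 1)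
      have h4 := S_add_one ℝ ((i:ℤ) + 1 + (j:ℤ))
      rw [show (i:ℤ) + 1 + 1 - 1 = (i:ℤ) + 1 - 1 + 1 by ring, h1, h2]
      rw [show (j:ℤ) - ((i:ℤ) + 1 + 1) - 1 = (j:ℤ) - ((i:ℤ)+1) - 1 - 1 by ring, h3]
      rw [show (i:ℤ) + 1 + 1 + (j:ℤ) = (i:ℤ) + 1 + (j:ℤ) + 1 by ring, h4]
      rw [show (j:ℤ) - ((i:ℤ) + 1) - 1 + 1 = (j:ℤ) - (i:ℤ) - 1 by ring]
      rw [show (i:ℤ) + 1 + (j:ℤ) - 1 = (i:ℤ) + (j:ℤ) by ring]
      rw [show (i:ℤ) + 1 - 1 = (i:ℤ) by ring] at a1 ⊢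
      linear_combination X * a1 - a0

theorem S_monic (i : ℕ) : (S ℝ i).Monic ∧ (S ℝ i).natDegree = i := by
  induction i using Nat.strong_induction_on with
  | _ i ih =>
    rcases i with _ | _ | i
    · simp
    · simp only [zero_add, Nat.cast_one, S_one]
      exact ⟨monic_X, natDegree_X⟩
    · obtain ⟨m1, d1⟩ := ih (i+1) (by omega)
      obtain ⟨m0, d0⟩ := ih i (by omega)
      have e := S_add_two ℝ (i:ℤ)
      push_cast at m1 d1 m0 d0 ⊢
      rw [show (i:ℤ) + 1 + 1 = (i:ℤ) + 2 by ring, e]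
      have M1 : (X * S ℝ ((i:ℤ)+1)).Monic := monic_X.mul m1
      have D1 : (X * S ℝ ((i:ℤ)+1)).natDegree = i + 2 := by
        rw [monic_X.natDegree_mul m1, natDegree_X, d1]; ring
      have hlt : (S ℝ (i:ℤ)).degree < (X * S ℝ ((i:ℤ)+1)).degree := by
        apply degree_lt_degree
        rw [d0, D1]; omega
      refine ⟨M1.sub_of_left hlt, ?_⟩
      rw [natDegree_sub_eq_left_of_natDegree_lt, D1]
      rw [d0, D1]; omega

theorem Sm_monic (i : ℕ) : (S ℝ i - S ℝ ((i:ℤ) - 1)).Monic ∧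
    (S ℝ i - S ℝ ((i:ℤ) - 1)).natDegree = i := by
  rcases i with _ | i
  · simp
  · obtain ⟨m1, d1⟩ := S_monic (i+1)
    obtain ⟨m0, d0⟩ := S_monic i
    have e : ((i+1:ℕ):ℤ) - 1 = (i:ℤ) := by push_cast; ring
    rw [e]
    have hlt : (S ℝ (i:ℤ)).degree < (S ℝ ((i+1:ℕ):ℤ)).degree := by
      apply degree_lt_degree
      rw [d0, d1]; omega
    refine ⟨m1.sub_of_left hlt, ?_⟩
    rw [natDegree_sub_eq_left_of_natDegree_lt, d1]
    rw [d0, d1]; omega

theorem Sp_monic (i : ℕ) : (S ℝ i + S ℝ ((i:ℤ) - 1)).Monic ∧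
    (S ℝ i + S ℝ ((i:ℤ) - 1)).natDegree = i := by
  rcases i with _ | i
  · simp
  · obtain ⟨m1, d1⟩ := S_monic (i+1)
    obtain ⟨m0, d0⟩ := S_monic i
    have e : ((i+1:ℕ):ℤ) - 1 = (i:ℤ) := by push_cast; ring
    rw [e]
    have hlt : (S ℝ (i:ℤ)).degree < (S ℝ ((i+1:ℕ):ℤ)).degree := by
      apply degree_lt_degree
      rw [d0, d1]; omega
    refine ⟨m1.add_of_left hlt, ?_⟩
    rw [natDegree_add_eq_left_of_degree_lt hlt, d1]

/-- symmetric bilinear form `(p,q) ↦ Λ(pq)` -/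
noncomputable def symf (Λ : ℝ[X] →ₗ[ℝ] ℝ) : ℝ[X] →ₗ[ℝ] ℝ[X] →ₗ[ℝ] ℝ :=
  (LinearMap.mul ℝ ℝ[X]).compr₂ Λ

theorem symf_apply (Λ : ℝ[X] →ₗ[ℝ] ℝ) (p q : ℝ[X]) : symf Λ p q = Λ (p * q) := rfl

theorem block_det {n : ℕ} (W H : Matrix (Fin n) (Fin n) ℝ) (hW : Wᵀ = -W) (hH : Hᵀ = H) :
    (Matrix.fromBlocks (-W) H (-H) W).det = (H + W).det ^ 2 := by
  have h1 : (Matrix.fromBlocks 1 0 1 1 : Matrix (Fin n ⊕ Fin n) (Fin n ⊕ Fin n) ℝ)
      * Matrix.fromBlocks (-W) H (-H) W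
      * (Matrix.fromBlocks 1 0 1 1 : Matrix (Fin n ⊕ Fin n) (Fin n ⊕ Fin n) ℝ)
      = Matrix.fromBlocks (H - W) H 0 (H + W) := by
    rw [Matrix.fromBlocks_multiply, Matrix.fromBlocks_multiply]
    simp only [Matrix.one_mul, Matrix.mul_one, Matrix.zero_mul, Matrix.mul_zero, add_zero,
      zero_add]
    congr 1
    · abel
    · abel
  have h2 := congrArg Matrix.det h1
  rw [Matrix.det_mul, Matrix.det_mul, Matrix.det_fromBlocks_zero₁₂,
    Matrix.det_fromBlocks_zero₂₁] at h2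
  simp only [Matrix.det_one, one_mul, mul_one] at h2
  have h3 : H - W = (H + W)ᵀ := by
    rw [Matrix.transpose_add, hW, hH]; abel
  rw [h2, h3, Matrix.det_transpose]
  ring

theorem toep_det (Λ : ℝ[X] →ₗ[ℝ] ℝ) (n : ℕ) :
    (Matrix.of fun i j : Fin (n+n) => beta Λ (X^(i:ℕ)) (X^(j:ℕ))).det
      = (Matrix.of fun i j : Fin n => symf Λ (X^(i:ℕ)) (X^(j:ℕ))).det ^ 2 := by
  let e : Fin n ⊕ Fin n ≃ Fin (n+n) :=
    (Equiv.sumCongr Fin.revPerm (Equiv.refl (Fin n))).trans finSumFinEquiv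
  rw [← Matrix.det_submatrix_equiv_self e]
  let W : Matrix (Fin n) (Fin n) ℝ := Matrix.of fun i j => Λ (S ℝ ((j:ℤ) - (i:ℤ) - 1))
  let H : Matrix (Fin n) (Fin n) ℝ := Matrix.of fun i j => Λ (S ℝ ((i:ℤ) + (j:ℤ)))
  have hW : Wᵀ = - W := by
    ext i j
    simp only [W, Matrix.transpose_apply, Matrix.of_apply, Matrix.neg_apply]
    rw [← map_neg, ← S_neg_sub_one]
    congr 2
    ring
  have hH : Hᵀ = H := by
    ext i j
    simp only [H, Matrix.transpose_apply, Matrix.of_apply]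
    rw [add_comm]
  have key : (Matrix.of fun i j : Fin (n+n) => beta Λ (X^(i:ℕ)) (X^(j:ℕ))).submatrix e e
      = Matrix.fromBlocks (-W) H (-H) W := by
    ext i j
    have hl : ∀ i : Fin n, ((e (Sum.inl i) : Fin (n+n)) : ℕ) = n - 1 - i := by
      intro i
      simp only [e, Equiv.trans_apply, Equiv.sumCongr_apply, Sum.map_inl, Fin.revPerm_apply,
        finSumFinEquiv_apply_left, Fin.val_castAdd, Fin.val_rev]
      omega
    have hr : ∀ i : Fin n, ((e (Sum.inr i) : Fin (n+n)) : ℕ) = n + i := by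
      intro i
      simp [e, add_comm]
    rcases i with i | i <;> rcases j with j | j <;>
      simp only [Matrix.submatrix_apply, Matrix.of_apply, Matrix.fromBlocks_apply₁₁,
        Matrix.fromBlocks_apply₁₂, Matrix.fromBlocks_apply₂₁, Matrix.fromBlocks_apply₂₂,
        Matrix.neg_apply, beta_X_pow, hl, hr, W, H]
    · rw [← map_neg, ← S_neg_sub_one]
      congr 2
      have := i.2; have := j.2
      omega
    · congr 2
      have := i.2; have := j.2
      omega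
    · rw [← map_neg, ← S_neg_sub_two]
      congr 2
      have := i.2; have := j.2
      omega
    · congr 2
      push_cast
      ring
  rw [key, block_det W H hW hH]
  congr 1
  have hM : H + W = Matrix.of fun i j : Fin n => symf Λ (S ℝ (i:ℕ) - S ℝ (((i:ℕ):ℤ) - 1))
      (S ℝ (j:ℕ) + S ℝ (((j:ℕ):ℤ) - 1)) := by
    ext i j
    simp only [H, W, Matrix.add_apply, Matrix.of_apply, symf_apply]
    rw [S_prod, map_add]
    ring
  rw [hM]
  exact gram_det (symf Λ) _ _ (fun i => (Sm_monic i).2) (fun i => (Sm_monic i).1)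
    (fun i => (Sp_monic i).2) (fun i => (Sp_monic i).1)

/-- scaled Chebyshev family on `[-6,2]` -/
noncomputable def VV : ℕ → ℝ[X]
  | 0 => 1
  | 1 => X + 2
  | (i+2) => (X + 2) * VV (i+1) - 4 * VV i

theorem VV_rec (i : ℕ) : VV (i+2) = (X + 2) * VV (i+1) - 4 * VV i := by rw [VV]

theorem VV_monic (i : ℕ) : (VV i).Monic ∧ (VV i).natDegree = i := by
  have h2 : (X + 2 : ℝ[X]) = X + C 2 := rfl
  induction i using Nat.strong_induction_on with
  | _ i ih =>
    rcases i with _ | _ | i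
    · simp [VV]
    · simp only [zero_add, VV]
      rw [h2]
      exact ⟨monic_X_add_C _, natDegree_X_add_C _⟩
    · obtain ⟨m1, d1⟩ := ih (i+1) (by omega)
      obtain ⟨m0, d0⟩ := ih i (by omega)
      rw [show i+1+1 = i+2 from rfl, VV_rec, h2]
      have M1 : ((X + C 2) * VV (i+1)).Monic := (monic_X_add_C _).mul m1
      have D1 : ((X + C 2) * VV (i+1)).natDegree = i + 2 := by
        rw [(monic_X_add_C _).natDegree_mul m1, natDegree_X_add_C, d1]; ring
      have D0 : (4 * VV i : ℝ[X]).natDegree ≤ i := by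
        rw [show (4 : ℝ[X]) = C 4 from rfl]
        exact (natDegree_C_mul_le _ _).trans d0.le
      have hlt : (4 * VV i : ℝ[X]).degree < ((X + C 2) * VV (i+1)).degree := by
        apply degree_lt_degree
        rw [D1]; omega
      refine ⟨M1.sub_of_left hlt, ?_⟩
      rw [natDegree_sub_eq_left_of_natDegree_lt, D1]
      rw [D1]; omega

theorem VV_comp (i : ℕ) : (VV i).comp (2 * X - 2) = C (2^i) * S ℝ (i:ℕ) := by
  induction i using Nat.strong_induction_on with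
  | _ i ih =>
    rcases i with _ | _ | i
    · simp [VV]
    · simp only [zero_add, VV, pow_one, Nat.cast_one, S_one]
      simp
      rfl
    · rw [show i+1+1 = i+2 from rfl, VV_rec]
      simp only [sub_comp, mul_comp, add_comp, X_comp, ofNat_comp]
      rw [ih (i+1) (by omega), ih i (by omega)]
      have e := S_add_two ℝ (i:ℤ)
      push_cast
      rw [e, pow_succ, pow_succ]
      simp only [Polynomial.C_mul, Polynomial.C_pow]
      rw [show (Polynomial.C (2:ℝ) : ℝ[X]) = 2 from rfl]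
      ring

end Pool.Agent.Q137.AZ
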